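import Pool.Agent.Lib.H76U.Final4

/-!
# Arrows between eigenspaces in an irreducible representation of a Lie algebra
-/

set_option autoImplicit false
set_option linter.unusedSectionVars false
namespace Pool.Agent.H76F
open Module Pool.Agent.H53Toric

variable {K : Type*} [Field K] {V : Type*} [AddCommGroup V] [Module K V]

/-- `γ` is an eigenvalue of `x` on the subspace `U` -/
def Eig (x : Module.End K V) (U : Submodule K V) (γ : K) : Prop :=
  ∃ v ∈ U, v ≠ 0 ∧ x v = γ • v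

/-- `β` is an eigenvalue of `x` on `U` of maximal height -/
def Top (x : Module.End K V) (U : Submodule K V) (w : K →*₀ NNReal) (β : K) : Prop :=
  Eig x U β ∧ ∀ γ, Eig x U γ → w γ ≤ w β

theorem comm_vec {x X : Module.End K V} {μ : K} (h : x * X = μ • (X * x)) {v : V} {γ : K}
    (hv : x v = γ • v) : x (X v) = (μ * γ) • X v := by
  have h1 : x (X v) = μ • X (x v) := congrArg (fun f : Module.End K V => f v) h
  rw [h1, hv, map_smul, smul_smul]

/-- There is an arrow from a top eigenvalue outside `A` to an eigenvalue in `A`. -/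
theorem arrow {L : Submodule K (Module.End K V)} (hL : IsLie L) {x : Module.End K V}
    (hspan : ∀ p : Submodule K (Module.End K V),
      (∀ X ∈ L, ∀ μ : K, x * X = μ • (X * x) → X ∈ p) → L ≤ p)
    {U : Submodule K V} (hU : ∀ X ∈ L, ∀ v ∈ U, X v ∈ U)
    (hirr : ∀ W : Submodule K V, W ≤ U → (∀ X ∈ L, ∀ v ∈ W, X v ∈ W) → W ≠ ⊥ → U ≤ W)
    (hx0 : ∀ v, x v = 0 → v = 0) (w : K →*₀ NNReal) {A : Set K}
    {α : K} (hα : α ∈ A) (hαU : Eig x U α) {β₀ : K} (hβ₀ : β₀ ∉ A) (hβ₀T : Top x U w β₀)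
    (hlow : ∀ γ, Eig x U γ → γ ∈ A ∨ Top x U w γ ∨ ∀ α ∈ A, Eig x U α → w γ ≤ w α) :
    ∃ X ∈ L, ∃ μ : K, x * X = μ • (X * x) ∧ ∃ β, Top x U w β ∧ β ∉ A ∧ μ * β ∈ A ∧
      ∃ v ∈ U, x v = β • v ∧ X v ≠ 0 := by
  by_contra hcon
  push Not at hcon
  have hne0 : ∀ γ, Eig x U γ → γ ≠ 0 := by
    rintro γ ⟨v, -, hv0, hv⟩ rfl
    rw [zero_smul] at hv
    exact hv0 (hx0 v hv)
  have hpos : ∀ γ, Eig x U γ → 0 < w γ := fun γ hγ =>
    pos_iff_ne_zero.2 ((map_ne_zero w).2 (hne0 γ hγ))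
  set C : Set (Submodule K V) := {W | (∀ β, Top x U w β → β ∉ A → ∀ v ∈ U, x v = β • v → v ∈ W) ∧
    ∀ X ∈ L, ∀ μ : K, x * X = μ • (X * x) → w μ < 1 → ∀ v ∈ W, X v ∈ W} with hC
  set 𝒲 : Submodule K V := sInf C with h𝒲
  have hle : ∀ W ∈ C, 𝒲 ≤ W := fun W hW => sInf_le hW
  have hmem : 𝒲 ∈ C := by
    refine ⟨fun β hβ hβA v hv hxv => ?_, fun X hX μ hμ hμ1 v hv => ?_⟩
    · rw [h𝒲, Submodule.mem_sInf]
      intro W hW
      exact hW.1 β hβ hβA v hv hxv
    · rw [h𝒲, Submodule.mem_sInf] at hv ⊢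
      intro W hW
      exact hW.2 X hX μ hμ hμ1 v (hv W hW)
  -- stability under raising operators
  have hraise : ∀ v ∈ 𝒲, ∀ Y ∈ L, ∀ ν : K, x * Y = ν • (Y * x) → 1 ≤ w ν → Y v ∈ 𝒲 := by
    let W₁ : Submodule K V :=
      { carrier := {v | v ∈ 𝒲 ∧ ∀ Y ∈ L, ∀ ν : K, x * Y = ν • (Y * x) → 1 ≤ w ν → Y v ∈ 𝒲}
        add_mem' := by
          rintro a b ⟨ha, ha'⟩ ⟨hb, hb'⟩
          refine ⟨𝒲.add_mem ha hb, fun Y hY ν hν h1 => ?_⟩
          rw [map_add]
          exact 𝒲.add_mem (ha' Y hY ν hν h1) (hb' Y hY ν hν h1)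
        zero_mem' := by
          refine ⟨𝒲.zero_mem, fun Y _ ν _ _ => ?_⟩
          rw [map_zero]
          exact 𝒲.zero_mem
        smul_mem' := by
          rintro c a ⟨ha, ha'⟩
          refine ⟨𝒲.smul_mem c ha, fun Y hY ν hν h1 => ?_⟩
          rw [map_smul]
          exact 𝒲.smul_mem c (ha' Y hY ν hν h1) }
    have hW₁ : W₁ ∈ C := by
      constructor
      · intro β hβ hβA v hv hxv
        refine ⟨hmem.1 β hβ hβA v hv hxv, fun Y hY ν hν h1 => ?_⟩
        by_cases hYv : Y v = 0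
        · rw [hYv]
          exact 𝒲.zero_mem
        have hx := comm_vec hν hxv
        have hE : Eig x U (ν * β) := ⟨Y v, hU Y hY v hv, hYv, hx⟩
        have hνβ : ν * β ∉ A := fun hA => hYv (hcon Y hY ν hν β hβ hβA hA v hv hxv)
        refine hmem.1 (ν * β) ⟨hE, fun γ hγ => ?_⟩ hνβ (Y v) (hU Y hY v hv) hx
        have h2 : w β ≤ w (ν * β) := by
          rw [map_mul]
          exact le_mul_of_one_le_left zero_le h1
        exact (hβ.2 γ hγ).trans h2
      · rintro X hX μ hμ hμ1 v ⟨hv, hv'⟩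
        refine ⟨hmem.2 X hX μ hμ hμ1 v hv, fun Y hY ν hν h1 => ?_⟩
        have e1 : Y (X v) = (Y * X - X * Y) v + X (Y v) := by
          rw [LinearMap.sub_apply, Module.End.mul_apply, Module.End.mul_apply, sub_add_cancel]
        rw [e1]
        refine 𝒲.add_mem ?_ (hmem.2 X hX μ hμ hμ1 _ (hv' Y hY ν hν h1))
        have hZ : x * (Y * X - X * Y) = (ν * μ) • ((Y * X - X * Y) * x) := by
          have e2 : x * Y * X = (ν * μ) • (Y * X * x) := by
            rw [hν, smul_mul_assoc, mul_assoc Y x X, hμ, mul_smul_comm, smul_smul, mul_assoc]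
          have e3 : x * X * Y = (ν * μ) • (X * Y * x) := by
            rw [hμ, smul_mul_assoc, mul_assoc X x Y, hν, mul_smul_comm, smul_smul, mul_assoc,
              mul_comm μ ν]
          rw [mul_sub, sub_mul, smul_sub, ← mul_assoc, ← mul_assoc, e2, e3]
        rcases lt_or_ge (w (ν * μ)) 1 with h2 | h2
        · exact hmem.2 _ (hL Y hY X hX) _ hZ h2 v hv
        · exact hv' _ (hL Y hY X hX) _ hZ h2
    intro v hv
    exact (hle W₁ hW₁ hv).2
  have hstab : ∀ X ∈ L, ∀ v ∈ 𝒲, X v ∈ 𝒲 := by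
    let p : Submodule K (Module.End K V) :=
      { carrier := {X | ∀ v ∈ 𝒲, X v ∈ 𝒲}
        add_mem' := fun {a b} ha hb v hv => by
          rw [LinearMap.add_apply]
          exact 𝒲.add_mem (ha v hv) (hb v hv)
        zero_mem' := fun v _ => by
          rw [LinearMap.zero_apply]
          exact 𝒲.zero_mem
        smul_mem' := fun c a ha v hv => by
          rw [LinearMap.smul_apply]
          exact 𝒲.smul_mem c (ha v hv) }
    have hp : L ≤ p := by
      apply hspan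
      intro X hX μ hμ v hv
      rcases lt_or_ge (w μ) 1 with h2 | h2
      · exact hmem.2 X hX μ hμ h2 v hv
      · exact hraise v hv X hX μ hμ h2
    intro X hX
    exact hp hX
  have hWU : 𝒲 ≤ U := hle U ⟨fun _ _ _ v hv _ => hv, fun X hX _ _ _ v hv => hU X hX v hv⟩
  have hW0 : 𝒲 ≠ ⊥ := by
    intro h0
    obtain ⟨v, hv, hv0, hxv⟩ := hβ₀T.1
    have := hmem.1 β₀ hβ₀T hβ₀ v hv hxv
    rw [h0, Submodule.mem_bot] at this
    exact hv0 this
  have hUW := hirr 𝒲 hWU hstab hW0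
  -- the sum of the eigenspaces outside `A`
  set Z : Submodule K V := ⨆ γ : {γ : K // γ ∉ A}, (U ⊓ Module.End.eigenspace x γ.1) with hZd
  have hZmem : ∀ γ, γ ∉ A → ∀ v ∈ U, x v = γ • v → v ∈ Z := by
    intro γ hγ v hv hxv
    exact (le_iSup (fun γ : {γ : K // γ ∉ A} => U ⊓ Module.End.eigenspace x γ.1) ⟨γ, hγ⟩)
      ⟨hv, Module.End.mem_eigenspace_iff.2 hxv⟩
  have hZ : Z ∈ C := by
    constructor
    · intro β _ hβA v hv hxv
      exact hZmem β hβA v hv hxv
    · intro X hX μ hμ hμ1 v hv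
      have hle2 : Z ≤ Z.comap X := by
        rw [hZd]
        refine iSup_le ?_
        rintro ⟨γ, hγ⟩ v ⟨hv, hxv⟩
        rw [SetLike.mem_coe, Module.End.mem_eigenspace_iff] at hxv
        rw [Submodule.mem_comap, ← hZd]
        by_cases hXv : X v = 0
        · rw [hXv]
          exact Z.zero_mem
        have hv0 : v ≠ 0 := by
          rintro rfl
          exact hXv (map_zero X)
        have hγE : Eig x U γ := ⟨v, hv, hv0, hxv⟩
        have hx := comm_vec hμ hxv
        have hμγE : Eig x U (μ * γ) := ⟨X v, hU X hX v hv, hXv, hx⟩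
        by_cases hA : μ * γ ∈ A
        · exfalso
          rcases hlow γ hγE with h1 | h1 | h1
          · exact hγ h1
          · exact hXv (hcon X hX μ hμ γ h1 hγ hA v hv hxv)
          · have h2 := h1 _ hA hμγE
            rw [map_mul] at h2
            exact absurd h2 (not_le.2 (mul_lt_of_lt_one_left (hpos γ hγE) hμ1))
        · exact hZmem _ hA _ (hU X hX v hv) hx
      exact hle2 hv
  obtain ⟨v, hv, hv0, hxv⟩ := hαU
  have hvZ : v ∈ Z := hle Z hZ (hUW hv)
  have hdisj := (Module.End.eigenspaces_iSupIndep x) α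
  rw [Submodule.disjoint_def] at hdisj
  apply hv0
  apply hdisj v (Module.End.mem_eigenspace_iff.2 hxv)
  refine (?_ : Z ≤ _) hvZ
  rw [hZd]
  refine iSup_le ?_
  rintro ⟨γ, hγ⟩
  refine inf_le_right.trans ?_
  refine le_iSup_of_le γ (le_iSup_of_le ?_ le_rfl)
  rintro rfl
  exact hγ hα

end Pool.Agent.H76F
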