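import Pool.Agent.Lib.H76F.Spec

/-!
# The Lie algebra of a small subgroup is normalised by the whole group
-/

set_option autoImplicit false
set_option linter.unusedSectionVars false
namespace Pool.Agent.H76F
open Module Matrix Pool.Agent.H53Toric Pool.Agent.H76U
open Pool.Agent.H76RM (van mem_van van_anti)

variable {ι : Type*} [Fintype ι] [DecidableEq ι] {K : Type*} [Field K]

theorem mem_zlie_van {S : Set (Matrix ι ι K)} {A : Matrix ι ι K} :
    A ∈ zlie S ↔ ∀ f ∈ van S, der A f ∈ van S := Iff.rfl

/-- the Lie algebra is stable under conjugation by matrices normalising the closure -/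
theorem zlie_conj' [CharZero K] {S : Set (Matrix ι ι K)} {x x' : Matrix ι ι K}
    (hxx : x * x' = 1)
    (h1 : ∀ f ∈ van S, ∀ s ∈ S, ev (x * s * x') f = 0)
    (h2 : ∀ f ∈ van S, ∀ s ∈ S, ev (x' * s * x) f = 0) {A : Matrix ι ι K} (hA : A ∈ zlie S) :
    x * A * x' ∈ zlie S := by
  have hx'x : x' * x = 1 := mul_eq_one_comm.1 hxx
  rw [mem_zlie_van]
  intro f hf s hs
  set f' := subR x' (subL x f) with hf'
  have hev : ∀ y, ev y f' = ev (x * y * x') f := by
    intro y
    rw [hf', ev_subR, ev_subL, mul_assoc]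
  have hf'v : f' ∈ van S := by
    intro y hy
    rw [hev]
    exact h1 f hf y hy
  have h3 := h2 _ (mem_zlie_van.1 hA f' hf'v) s hs
  rw [← eval_derivative_lin] at h3 ⊢
  have h4 : lin (x' * s * x) (x' * s * x * A) f' = lin s (s * (x * A * x')) f := by
    apply Polynomial.funext
    intro t
    rw [eval_lin, eval_lin, hev]
    refine congrArg (fun y => ev y f) ?_
    calc x * (x' * s * x + t • (x' * s * x * A)) * x' =
        (x * x') * s * (x * x') + t • ((x * x') * s * (x * A * x')) := by
          rw [mul_add, add_mul, mul_smul_comm, smul_mul_assoc]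
          congr 1
          · noncomm_ring
          · congr 1
            noncomm_ring
      _ = _ := by rw [hxx, one_mul, mul_one]
  rw [← h4]
  exact h3

section
variable {L : Type*} [Field L] [Algebra L K] {G : Type*} [Group G]

/-- Subgroups of finite index of a subgroup with irreducible closure have the same closure. -/
theorem van_min (ρ : G →* Matrix.GeneralLinearGroup ι L) {H H' : Subgroup G}
    (hprime : (van (img K ρ H)).IsPrime) (hle : H' ≤ H) (hfin : H'.FiniteIndex) :
    van (img K ρ H') = van (img K ρ H) := by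
  classical
  refine le_antisymm ?_ (van_anti ρ hle)
  intro f hf
  have hfi : (H'.subgroupOf H).FiniteIndex := inferInstance
  have : Finite (H ⧸ H'.subgroupOf H) := Subgroup.finite_quotient_of_finiteIndex
  have : Fintype (H ⧸ H'.subgroupOf H) := Fintype.ofFinite _
  set F : MvPolynomial (ι × ι) K := ∏ q : H ⧸ H'.subgroupOf H,
    subL ((ρ ((q.out : H) : G)⁻¹).1.map (algebraMap L K)) f with hF
  have hFv : F ∈ van (img K ρ H) := by
    rintro _ ⟨s, hs, rfl⟩
    rw [hF, map_prod]
    refine Finset.prod_eq_zero (Finset.mem_univ (QuotientGroup.mk (⟨s, hs⟩ : H))) ?_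
    rw [ev_subL, ← Matrix.map_mul, ← Units.val_mul, ← map_mul]
    apply hf
    refine ⟨_, ?_, rfl⟩
    have h1 : (QuotientGroup.mk ((QuotientGroup.mk (⟨s, hs⟩ : H) :
        H ⧸ H'.subgroupOf H).out) : H ⧸ H'.subgroupOf H) = QuotientGroup.mk (⟨s, hs⟩ : H) :=
      QuotientGroup.out_eq' _
    rw [QuotientGroup.eq, Subgroup.mem_subgroupOf] at h1
    exact h1
  obtain ⟨q, -, hq⟩ := (Ideal.IsPrime.prod_mem_iff (hp := hprime)).1 hFv
  rintro _ ⟨s, hs, rfl⟩
  have h2 := hq _ ⟨(q.out : H) * s, H.mul_mem (q.out : H).2 hs, rfl⟩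
  rw [ev_subL, ← Matrix.map_mul, ← Units.val_mul, ← map_mul, inv_mul_cancel_left] at h2
  exact h2

/-- the vanishing ideal is stable under conjugation -/
theorem van_conj (ρ : G →* Matrix.GeneralLinearGroup ι L) {H : Subgroup G}
    (hprime : (van (img K ρ H)).IsPrime) (hfin : H.FiniteIndex) (σ : G) :
    ∀ f ∈ van (img K ρ H), ∀ s ∈ img K ρ H,
      ev ((ρ σ).1.map (algebraMap L K) * s * (ρ σ⁻¹).1.map (algebraMap L K)) f = 0 := by
  intro f hf s hs
  set x := (ρ σ).1.map (algebraMap L K) with hx
  set x' := (ρ σ⁻¹).1.map (algebraMap L K) with hx'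
  have hev : ∀ y, ev y (subR x' (subL x f)) = ev (x * y * x') f := by
    intro y
    rw [ev_subR, ev_subL, mul_assoc]
  rw [← hev]
  have hfin' : (H ⊓ H.comap (MulAut.conj σ).toMonoidHom).FiniteIndex := by
    have h1 : (H.comap (MulAut.conj σ).toMonoidHom).FiniteIndex := by
      rw [Subgroup.finiteIndex_iff, Subgroup.index_comap_of_surjective _
        (MulAut.conj σ).surjective]
      exact hfin.index_ne_zero
    infer_instance
  have h2 := van_min ρ hprime (inf_le_left : H ⊓ H.comap (MulAut.conj σ).toMonoidHom ≤ H) hfin'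
  have h3 : subR x' (subL x f) ∈ van (img K ρ (H ⊓ H.comap (MulAut.conj σ).toMonoidHom)) := by
    rintro _ ⟨τ, hτ, rfl⟩
    rw [hev, hx, hx', ← Matrix.map_mul, ← Matrix.map_mul, ← Units.val_mul, ← Units.val_mul,
      ← map_mul, ← map_mul]
    exact hf _ ⟨σ * τ * σ⁻¹, hτ.2, rfl⟩
  rw [h2] at h3
  exact h3 s hs

end

/-- transfer between sets with the same closure -/
theorem van_eq_of_zar {S T : Set (Matrix ι ι K)} (h : zar S = zar T) : van S = van T := by
  have key : ∀ {S T : Set (Matrix ι ι K)}, zar S ⊆ zar T → van T ≤ van S := by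
    intro S T hST f hf s hs
    exact hST (subset_zar S hs) f hf
  exact le_antisymm (key h.ge) (key h.le)

/-- vanishing at the points of the closure -/
theorem van_zar {S : Set (Matrix ι ι K)} {f : MvPolynomial (ι × ι) K} (hf : f ∈ van S)
    {y : Matrix ι ι K} (hy : y ∈ zar S) : ev y f = 0 := hy f hf

/-- conjugation stability for a set with the same closure -/
theorem conj_transfer {S T : Set (Matrix ι ι K)} (h : zar S = zar T) {x x' : Matrix ι ι K}
    (hT : ∀ f ∈ van T, ∀ s ∈ T, ev (x * s * x') f = 0) :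
    ∀ f ∈ van S, ∀ s ∈ S, ev (x * s * x') f = 0 := by
  intro f hf s hs
  have hf' : f ∈ van T := by rwa [← van_eq_of_zar h]
  have hev : ∀ y, ev y (subR x' (subL x f)) = ev (x * y * x') f := by
    intro y
    rw [ev_subR, ev_subL, mul_assoc]
  rw [← hev]
  have h1 : subR x' (subL x f) ∈ van T := by
    intro y hy
    rw [hev]
    exact hT f hf' y hy
  have h2 : s ∈ zar T := h ▸ subset_zar S hs
  exact h2 _ h1

end Pool.Agent.H76F
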