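import Pool.Agent.Lib.H76U.Defs
import Pool.Agent.Lib.H53Toric.Weil

/-!
# Definitions: cuts of the set of eigenvalues without multiplicative relations
-/

set_option autoImplicit false

namespace Pool.Agent.H76F

open Matrix

variable {ι : Type*} [Fintype ι] [DecidableEq ι] {K : Type*} [Field K]

/-- `γ` is an eigenvalue of the matrix `x` on the range of the idempotent matrix `p`. -/
def EigOn (x p : Matrix ι ι K) (γ : K) : Prop :=
  ∃ v : ι → K, p *ᵥ v = v ∧ v ≠ 0 ∧ x *ᵥ v = γ • v

/-- The eigenspace of `x` for `γ` on the range of `p` has dimension at most one. -/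
def SimpleOn (x p : Matrix ι ι K) (γ : K) : Prop :=
  ∃ v : ι → K, ∀ v' : ι → K, p *ᵥ v' = v' → x *ᵥ v' = γ • v' → ∃ t : K, v' = t • v

/-- `β` is an eigenvalue of `x` on the range of `p` with the largest value of `w`. -/
def TopOn (w : K →*₀ NNReal) (x p : Matrix ι ι K) (β : K) : Prop :=
  EigOn x p β ∧ ∀ γ, EigOn x p γ → w γ ≤ w β

/-- The matrix `x` is diagonalisable, satisfies `xᵀ J x = c J`, and there are a set `A` (which
divides the eigenvalues of `x` on the range of `p` into two classes) and a multiplicative map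
`w` from `K` to the nonnegative real numbers (an absolute value, trivial or not, or any other
homomorphism) with the following properties.  Some eigenvalue belongs to `A`, some eigenvalue of
largest `w` does not belong to `A`; an eigenvalue that does not belong to `A` has the largest `w`,
or its `w` is at most that of all the eigenvalues in `A`; if `α` is an eigenvalue in `A` and `β`
an eigenvalue of largest `w` which is not in `A`, then one of `α`, `β` is simple, and
`α * γ = β * δ` for two eigenvalues `γ`, `δ` only if `γ = β` or (allowed only if the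
proposition `s` holds) `α * γ = c`. -/
def FreeCut (J x p : Matrix ι ι K) (s : Prop) : Prop :=
  Pool.Agent.H53Toric.Diagonalisable x ∧ ∃ (c : K) (w : K →*₀ NNReal) (A : Set K),
    xᵀ * J * x = c • J ∧
    (∃ α ∈ A, EigOn x p α) ∧ (∃ β, β ∉ A ∧ TopOn w x p β) ∧
    (∀ γ, EigOn x p γ → γ ∈ A ∨ TopOn w x p γ ∨ ∀ α ∈ A, EigOn x p α → w γ ≤ w α) ∧
    ∀ α ∈ A, EigOn x p α → ∀ β, β ∉ A → TopOn w x p β →
      (SimpleOn x p α ∨ SimpleOn x p β) ∧
      ∀ γ δ, EigOn x p γ → EigOn x p δ → α * γ = β * δ → γ = β ∨ (s ∧ α * γ = c)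

end Pool.Agent.H76F
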