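import Pool.Agent.Lib.H76F.Conj

/-!
# Elements of small rank from a cut without relations
-/

set_option autoImplicit false
set_option linter.unusedSectionVars false
namespace Pool.Agent.H76F
open Module Matrix Pool.Agent.H53Toric Pool.Agent.H76U

section
variable {K : Type*} [Field K] {V : Type*} [AddCommGroup V] [Module K V]
variable {B : Type*} [Fintype B] [DecidableEq B] {Γ : Type*} [Group Γ]
variable {ω : V →ₗ[K] V →ₗ[K] K} {e : B → Module.End K V} {bar : B → B}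
    {g : Submodule K (Module.End K V)} {r : Γ →* Module.End K V} {𝓗 : Set (Module.End K V)}

/-- the components are irreducible under the Hodge projectors -/
theorem irr_b (h : Big ω e bar g r 𝓗) [FiniteDimensional K V]
    {L : Submodule K (Module.End K V)} (hHL : ∀ k ∈ 𝓗, k ∈ L) {b : B} {W : Submodule K V}
    (hW : ∀ v ∈ W, e b v = v) (hstab : ∀ X ∈ L, ∀ v ∈ W, X v ∈ W) (hW0 : W ≠ ⊥) {v : V}
    (hv : e b v = v) : v ∈ W := by
  by_contra hcon
  obtain ⟨f, hf0, hfW⟩ := Submodule.exists_le_ker_of_notMem hcon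
  obtain ⟨a, ha⟩ := h.surj f
  obtain ⟨w₀, hw₀, hw₀0⟩ := Submodule.exists_mem_ne_zero_of_ne_bot hW0
  have hmon : ∀ m ∈ hmon 𝓗, ∀ w ∈ W, m w ∈ W := by
    intro m hm
    refine Submonoid.closure_induction (motive := fun m _ => ∀ w ∈ W, m w ∈ W) ?_ ?_ ?_ hm
    · rintro _ ⟨k, hk, t, -, rfl⟩ w hw
      simp only [LinearMap.add_apply, Module.End.one_apply, LinearMap.smul_apply]
      exact W.add_mem hw (W.smul_mem _ (hstab k (hHL k hk) w hw))
    · intro w hw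
      exact hw
    · intro p q _ _ hp hq w hw
      exact hp _ (hq _ hw)
  rcases h.falt (e (bar b) a) w₀ (h.fsum (h.idem' _ a)) (h.fsum (hW w₀ hw₀)) (by
    intro m hm
    have h1 := hmon m hm w₀ hw₀
    rw [← h.self, hW _ h1, ← ha]
    exact LinearMap.mem_ker.1 (hfW h1)) b with h2 | h2
  · rw [hW w₀ hw₀] at h2
    exact hw₀0 h2
  · rw [h.idem'] at h2
    apply hf0
    rw [ha, ← hv, h.self, h2, map_zero]

end

section
variable {ι : Type*} [Fintype ι] [DecidableEq ι] {K : Type*} [Field K]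

theorem conj_sim {J x x' A : Matrix ι ι K} (hxx : x * x' = 1) {c s : K}
    (hc : xᵀ * J * x = c • J) (hA : Aᵀ * J + J * A = s • J) :
    (x * A * x')ᵀ * J + J * (x * A * x') = s • J := by
  have hxx' : x'ᵀ * xᵀ = 1 := by rw [← Matrix.transpose_mul, hxx, Matrix.transpose_one]
  have h2 : xᵀ * J = c • (J * x') := by
    calc xᵀ * J = xᵀ * J * (x * x') := by rw [hxx, mul_one]
      _ = (xᵀ * J * x) * x' := by noncomm_ring
      _ = _ := by rw [hc, smul_mul_assoc]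
  have h3 : J * x = c • (x'ᵀ * J) := by
    calc J * x = (x'ᵀ * xᵀ) * J * x := by rw [hxx', one_mul]
      _ = x'ᵀ * (xᵀ * J * x) := by noncomm_ring
      _ = _ := by rw [hc, mul_smul_comm]
  rw [Matrix.transpose_mul, Matrix.transpose_mul]
  calc x'ᵀ * (Aᵀ * xᵀ) * J + J * (x * A * x') =
      x'ᵀ * Aᵀ * (xᵀ * J) + (J * x) * A * x' := by noncomm_ring
    _ = c • (x'ᵀ * (Aᵀ * J + J * A) * x') := by
        rw [h2, h3]
        simp only [mul_smul_comm, smul_mul_assoc, ← smul_add]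
        congr 1
        noncomm_ring
    _ = s • ((c • (x'ᵀ * J)) * x') := by
        rw [hA, mul_smul_comm, smul_mul_assoc, smul_comm, smul_mul_assoc]
    _ = _ := by rw [← h3, mul_assoc, hxx, mul_one]

theorem mem_range_phi {p : Matrix ι ι K} (hpp : p * p = p) {v : ι → K} :
    v ∈ LinearMap.range (phi p) ↔ p *ᵥ v = v := by
  constructor
  · rintro ⟨u, rfl⟩
    rw [phi_apply, Matrix.mulVec_mulVec, hpp]
  · intro hv
    exact ⟨v, hv⟩

theorem eig_iff {x p : Matrix ι ι K} (hpp : p * p = p) {γ : K} :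
    Eig (phi x) (LinearMap.range (phi p)) γ ↔ EigOn x p γ := by
  constructor
  · rintro ⟨v, hv, hv0, hxv⟩
    exact ⟨v, (mem_range_phi hpp).1 hv, hv0, hxv⟩
  · rintro ⟨v, hv, hv0, hxv⟩
    exact ⟨v, (mem_range_phi hpp).2 hv, hv0, hxv⟩

theorem top_iff {x p : Matrix ι ι K} (hpp : p * p = p) {w : K →*₀ NNReal} {γ : K} :
    Top (phi x) (LinearMap.range (phi p)) w γ ↔ TopOn w x p γ := by
  simp only [Top, TopOn, eig_iff hpp]

/-- **Elements of small rank.** -/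
theorem frob_elt [IsAlgClosed K] [CharZero K] {B : Type*} [Fintype B] [DecidableEq B] {J : Matrix ι ι K}
    {DD : Submodule K (Matrix ι ι K)} {bar : B → B} {e : B → Matrix ι ι K}
    (hspl : Split4 J DD bar e) (hdet : IsUnit J.det) (hJ0 : J ≠ 0)
    {S : Set (Matrix ι ι K)} (hone : (1 : Matrix ι ι K) ∈ S)
    (hlin : ∀ s ∈ S, ∀ d ∈ DD, s * d = d * s) {𝓗 : Set (Matrix ι ι K)}
    {Γ : Type*} [Group Γ] {r : Γ →* Module.End K (ι → K)}
    (hbig : Big (om J) (fun b => phi (e b)) bar (lieE J S) r ((fun x => phi x) '' 𝓗))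
    (hL : ∀ k ∈ 𝓗, k ∈ preL J S) {x x' : Matrix ι ι K} (hxx : x * x' = 1)
    (hcz : ∀ A ∈ zlie S, x * A * x' ∈ zlie S) {b : B} (hxe : x * e b = e b * x)
    (hcut : FreeCut J x (e b) (bar b = b)) :
    ∃ X ∈ zlie S, Xᵀ * J + J * X = 0 ∧ X * e b ≠ 0 ∧
      ((bar b = b ∧ (X * e b).rank ≤ 2) ∨ (X * e b).rank ≤ 1) := by
  classical
  have hx'x : x' * x = 1 := mul_eq_one_comm.1 hxx
  have hpp := hspl.idem b
  obtain ⟨⟨P, Q, d, hPQ, hQP, hx⟩, c, w, A, hc, ⟨α₀, hα₀A, hα₀⟩, ⟨β₀, hβ₀A, hβ₀⟩, hlow,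
    hfree⟩ := hcut
  have hinj : ∀ v : ι → K, x *ᵥ v = 0 → v = 0 := by
    intro v hv
    calc v = (x' * x) *ᵥ v := by rw [hx'x, Matrix.one_mulVec]
      _ = 0 := by rw [← Matrix.mulVec_mulVec, hv, Matrix.mulVec_zero]
  have hd0 : ∀ k, d k ≠ 0 := by
    intro k hk
    have h2 : Matrix.diagonal d * (Q * x' * P) = 1 := by
      calc Matrix.diagonal d * (Q * x' * P) =
          (Q * P) * Matrix.diagonal d * (Q * x' * P) := by rw [hQP, one_mul]
        _ = Q * ((P * Matrix.diagonal d * Q) * x') * P := by noncomm_ring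
        _ = 1 := by rw [← hx, hxx, mul_one, hQP]
    have h3 := congrArg (fun m => m k k) h2
    simp only [Matrix.diagonal_mul, hk, zero_mul, Matrix.one_apply_eq] at h3
    exact zero_ne_one h3
  have hc0 : c ≠ 0 := by
    rintro rfl
    rw [zero_smul] at hc
    apply hJ0
    have hxx' : x'ᵀ * xᵀ = 1 := by rw [← Matrix.transpose_mul, hxx, Matrix.transpose_one]
    calc J = (x'ᵀ * xᵀ) * J * (x * x') := by rw [hxx', hxx, one_mul, mul_one]
      _ = x'ᵀ * (xᵀ * J * x) * x' := by noncomm_ring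
      _ = 0 := by rw [hc]; simp
  -- the Lie algebra
  set L : Submodule K (Module.End K (ι → K)) :=
    (preL J S).map (phi (ι := ι) (K := K)).toLinearMap with hLd
  have hmemL : ∀ {X : Matrix ι ι K}, X ∈ preL J S → phi X ∈ L := fun hX => ⟨_, hX, rfl⟩
  have hLie : IsLie L := by
    rintro _ ⟨X, hX, rfl⟩ _ ⟨Y, hY, rfl⟩
    obtain ⟨h1, h2⟩ := preL_bracket hX hY
    refine ⟨X * Y - Y * X, ⟨⟨0, _, h1, by rw [zero_smul, add_zero]⟩, 0, by rw [h2, zero_smul]⟩, ?_⟩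
    exact map_sub (phi (ι := ι) (K := K)) _ _ |>.trans (by rw [map_mul, map_mul]; rfl)
  have hconj : ∀ X ∈ preL J S, x * X * x' ∈ preL J S := by
    rintro X ⟨⟨a, C, hC, rfl⟩, s, hs⟩
    refine ⟨⟨a, x * C * x', hcz C hC, ?_⟩, s, conj_sim hxx hc hs⟩
    rw [mul_add, add_mul, mul_smul_comm, smul_mul_assoc, mul_one, hxx]
  have hspan : ∀ p : Submodule K (Module.End K (ι → K)),
      (∀ X ∈ L, ∀ μ : K, phi x * X = μ • (X * phi x) → X ∈ p) → L ≤ p := by
    intro p hp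
    rw [hLd, Submodule.map_le_iff_le_comap]
    refine span_eig hx'x hPQ hQP hx hd0 hconj _ ?_
    intro X hX μ hμ
    apply hp _ (hmemL hX) μ
    change phi x * phi X = μ • (phi X * phi x)
    rw [← map_mul, hμ, map_smul, map_mul]
  set U := LinearMap.range (phi (e b)) with hUd
  have hmemU : ∀ {v : ι → K}, v ∈ U ↔ e b *ᵥ v = v := mem_range_phi hpp
  have hXe : ∀ X ∈ preL J S, X * e b = e b * X := fun X hX => preL_e hspl hone hlin hX
  have hUs : ∀ X ∈ L, ∀ v ∈ U, X v ∈ U := by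
    rintro _ ⟨X, hX, rfl⟩ v hv
    rw [hmemU] at hv ⊢
    change e b *ᵥ (X *ᵥ v) = X *ᵥ v
    rw [Matrix.mulVec_mulVec, ← hXe X hX, ← Matrix.mulVec_mulVec, hv]
  have hirr : ∀ W : Submodule K (ι → K), W ≤ U → (∀ X ∈ L, ∀ v ∈ W, X v ∈ W) → W ≠ ⊥ →
      U ≤ W := by
    intro W hWU hWs hW0 v hv
    refine irr_b hbig (L := L) ?_ (b := b) (W := W) (fun v hv => hmemU.1 (hWU hv)) hWs hW0
      (hmemU.1 hv)
    rintro _ ⟨k, hk, rfl⟩
    exact hmemL (hL k hk)
  obtain ⟨_, ⟨X, hX, rfl⟩, μ, hμ, β, hβ, hβA, hμβ, v₁, hv₁, hxv₁, hXv₁⟩ := arrow hLie hspan hUs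
    hirr hinj w hα₀A ((eig_iff hpp).2 hα₀) hβ₀A ((top_iff hpp).2 hβ₀) (by
      intro γ hγ
      rcases hlow γ ((eig_iff hpp).1 hγ) with h1 | h1 | h1
      · exact Or.inl h1
      · exact Or.inr (Or.inl ((top_iff hpp).2 h1))
      · exact Or.inr (Or.inr fun α hα hαE => h1 α hα ((eig_iff hpp).1 hαE)))
  change phi x * phi X = μ • (phi X * phi x) at hμ
  have hμ' : x * X = μ • (X * x) := by
    apply (phi (ι := ι) (K := K)).injective
    rw [map_mul, hμ, map_smul, map_mul]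
  change x *ᵥ v₁ = β • v₁ at hxv₁
  change X *ᵥ v₁ ≠ 0 at hXv₁
  have hv₁e := hmemU.1 hv₁
  have hβT := (top_iff hpp).1 hβ
  have hcomm : ∀ {γ : K} {v : ι → K}, x *ᵥ v = γ • v → x *ᵥ (X *ᵥ v) = (μ * γ) • (X *ᵥ v) :=
    fun {γ v} hv => comm_vec (x := phi x) (X := phi X) hμ (v := v) hv
  have hXe' : ∀ {v : ι → K}, e b *ᵥ v = v → e b *ᵥ (X *ᵥ v) = X *ᵥ v := fun {v} hv =>
    hmemU.1 (hUs _ (hmemL hX) v (hmemU.2 hv))
  have hαE : EigOn x (e b) (μ * β) := ⟨X *ᵥ v₁, hXe' hv₁e, hXv₁, hcomm hxv₁⟩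
  obtain ⟨hsimple, hrel⟩ := hfree _ hμβ hαE β hβA hβT
  have hμ1 : μ ≠ 1 := by
    rintro rfl
    rw [one_mul] at hμβ
    exact hβA hμβ
  have hxXx : x * X * x' = μ • X := by
    rw [hμ', smul_mul_assoc, mul_assoc, hxx, mul_one]
  have hXz : X ∈ zlie S := by
    obtain ⟨⟨a, C, hC, hXC⟩, -⟩ := hX
    have h1 : (μ - 1) • X = x * C * x' - C := by
      rw [sub_smul, one_smul, ← hxXx, hXC, mul_add, add_mul, mul_smul_comm, smul_mul_assoc,
        mul_one, hxx]
      abel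
    have h2 : (μ - 1) • X ∈ zlie S := by
      rw [h1]
      exact (zlie S).sub_mem (hcz C hC) hC
    have h3 := (zlie S).smul_mem (μ - 1)⁻¹ h2
    rwa [smul_smul, inv_mul_cancel₀ (sub_ne_zero.2 hμ1), one_smul] at h3
  have hXs : Xᵀ * J + J * X = 0 := by
    obtain ⟨-, s, hs⟩ := hX
    have h1 := conj_sim hxx hc hs
    rw [hxXx, Matrix.transpose_smul, smul_mul_assoc, mul_smul_comm, ← smul_add, hs,
      smul_smul] at h1
    have h2 : (μ * s - s) • J = 0 := by rw [sub_smul, h1, sub_self]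
    have h3 := (smul_eq_zero.1 h2).resolve_right hJ0
    have h4 : (μ - 1) * s = 0 := by linear_combination h3
    rw [hs, (mul_eq_zero.1 h4).resolve_left (sub_ne_zero.2 hμ1), zero_smul]
  have hXg : phi X ∈ lieE J S := mem_lieE.2 ⟨hXz, (skew_iff hdet X).2 hXs⟩
  refine ⟨X, hXz, hXs, ?_, ?_⟩
  · intro h0
    apply hXv₁
    rw [← hv₁e, Matrix.mulVec_mulVec, h0, Matrix.zero_mulVec]
  -- the line
  have hline : ∀ v : ι → K, e b *ᵥ v = v → x *ᵥ v = β • v → ∃ t : K, X *ᵥ v = t • (X *ᵥ v₁) := by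
    intro v hv hxv
    rcases hsimple with ⟨v₀, hv₀⟩ | ⟨v₀, hv₀⟩
    · obtain ⟨t, ht⟩ := hv₀ _ (hXe' hv) (hcomm hxv)
      obtain ⟨t₁, ht₁⟩ := hv₀ _ (hXe' hv₁e) (hcomm hxv₁)
      have ht₁0 : t₁ ≠ 0 := by
        rintro rfl
        rw [zero_smul] at ht₁
        exact hXv₁ ht₁
      refine ⟨t * t₁⁻¹, ?_⟩
      rw [ht, ht₁, smul_smul, mul_assoc, inv_mul_cancel₀ ht₁0, mul_one]
    · obtain ⟨t, ht⟩ := hv₀ _ hv hxv
      obtain ⟨t₁, ht₁⟩ := hv₀ _ hv₁e hxv₁
      have ht₁0 : t₁ ≠ 0 := by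
        rintro rfl
        rw [zero_smul] at ht₁
        apply hXv₁
        rw [ht₁, Matrix.mulVec_zero]
      refine ⟨t * t₁⁻¹, ?_⟩
      rw [ht, ht₁, Matrix.mulVec_smul, Matrix.mulVec_smul, smul_smul, mul_assoc,
        inv_mul_cancel₀ ht₁0, mul_one]
  have hblock : ∀ (γ : K) (v : ι → K), e b *ᵥ v = v → x *ᵥ v = γ • v → X *ᵥ v ≠ 0 →
      γ = β ∨ (bar b = b ∧ μ * β * γ = c) := by
    intro γ v hv hxv hXv
    have hv0 : v ≠ 0 := by
      rintro rfl
      exact hXv (Matrix.mulVec_zero _)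
    exact hrel γ (μ * γ) ⟨v, hv, hv0, hxv⟩ ⟨_, hXe' hv, hXv, hcomm hxv⟩ (by ring)
  have hrk : (X * e b).rank = finrank K (LinearMap.range (phi X * phi (e b))) := by
    rw [← map_mul]
    rfl
  have hsp : ∀ W : Submodule K (ι → K),
      (∀ (γ : K) (v : ι → K), phi (e b) v = v → phi x v = γ • v → v ∈ W) →
      ∀ v, phi (e b) v = v → v ∈ W := fun W hW v hv =>
    span_range hPQ hQP hx hxe hpp W hW v hv
  by_cases hb : bar b = b
  · left
    refine ⟨hb, ?_⟩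
    rw [hrk]
    have hμβ0 : μ * β ≠ 0 := by
      intro h0
      obtain ⟨v, -, hv0, hxv⟩ := hαE
      rw [h0, zero_smul] at hxv
      exact hv0 (hinj v hxv)
    refine rank_le_two (ω := om J) hbig.nd (e := phi (e b)) (X := phi X) (x := phi x) ?_ ?_ ?_
      ?_ hc0 ?_ hsp hμ hμβ0 ?_ (d := X *ᵥ v₁) ?_
    · intro v w'
      have := hbig.self b v w'
      rwa [hb] at this
    · exact hbig.idem' b
    · intro v
      exact hbig.ecomm hXg b v
    · exact hbig.skew _ hXg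
    · intro v w'
      rw [phi_apply, phi_apply, om_mul, hc, om_apply, om_apply, Matrix.smul_mulVec,
        dotProduct_smul, smul_eq_mul]
    · intro γ v hv hxv hXv
      rcases hblock γ v hv hxv hXv with h1 | h1
      · exact Or.inl h1
      · exact Or.inr h1.2
    · exact hline
  · right
    rw [hrk]
    refine rank_le_one (e := phi (e b)) (X := phi X) (x := phi x) (hbig.idem' b) hsp
      (β := β) ?_ (d := X *ᵥ v₁) hline
    intro γ v hv hxv hXv
    rcases hblock γ v hv hxv hXv with h1 | h1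
    · exact h1
    · exact absurd h1.1 hb

end

end Pool.Agent.H76F
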