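import Pool.Agent.Lib.H76F.Elt

/-!
# Monodromy groups of representations commuting with an algebra with involution, with free cuts
-/

set_option autoImplicit false
set_option linter.unusedSectionVars false
namespace Pool.Agent.H76F
open Module Matrix Pool.Agent.H53Toric Pool.Agent.H76U
open Pool.Agent.H76RM (zar_commute comm_span spanK similD exists_prime van)

variable {ι : Type*} [Fintype ι] [DecidableEq ι]

/-- The monodromy group, over an algebraically closed field. -/
theorem monodromy_free [Nonempty ι] {ψ : Matrix ι ι ℚ}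
    (hψ : ψᵀ = -ψ) (hψ0 : ψ.det ≠ 0) (D : Subalgebra ℚ (Matrix ι ι ℚ))
    {L : Type*} [Field L] [CharZero L] {K : Type*} [Field K]
    [Algebra L K] [IsAlgClosed K] [CharZero K] {G : Type*} [Group G]
    (ρ : G →* Matrix.GeneralLinearGroup ι L)
    (lin : ∀ σ : G, ∀ d ∈ D, (ρ σ).1 * d.map (algebraMap ℚ L) =
      d.map (algebraMap ℚ L) * (ρ σ).1)
    (sim : ∀ σ : G, ∃ c : L, (ρ σ).1ᵀ * ψ.map (algebraMap ℚ L) * (ρ σ).1 =
      c • ψ.map (algebraMap ℚ L))
    (semis : ∀ H : Subgroup G, H.FiniteIndex → ∀ W : Submodule K (ι → K),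
      (∀ s ∈ img K ρ H, ∀ w ∈ W, s *ᵥ w ∈ W) →
      ∃ W' : Submodule K (ι → K), (∀ s ∈ img K ρ H, ∀ w ∈ W', s *ᵥ w ∈ W') ∧ IsCompl W W')
    (commt : ∀ H : Subgroup G, H.FiniteIndex → ∀ y : Matrix ι ι K,
      (∀ s ∈ img K ρ H, y * s = s * y) → y ∈ spanK K D)
    {m : ℕ} {bar : Fin m → Fin m} {e : Fin m → Matrix ι ι K} (hspl : IsSplitting D ψ bar e)
    {sig : Set (Fin m → ℕ)}
    (hpos : ∀ n ∈ sig, ∀ b, n b + n (bar b) = (e b).rank ∧ (1 < (e b).rank → 0 < n b))
    {𝓗 : Set (Matrix ι ι K)} (h𝓗 : ∀ x ∈ 𝓗, x ∈ hodgeProj (img K ρ ⊤))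
    (hsig : ∀ x ∈ 𝓗, (fun b => (x * e b).rank) ∈ sig)
    (hsig' : ∀ n ∈ sig, ∃ x ∈ 𝓗, ∀ b, (x * e b).rank = n b)
    {H₀ : Subgroup G} (hgen : img K ρ H₀ ⊆ zar (Submonoid.closure {m | ∃ h ∈ 𝓗, ∃ t : K,
      t ≠ 0 ∧ m = 1 + (t - 1) • h} : Set (Matrix ι ι K)))
    (comp : ∀ b, (e b).rank = 1 ∨
      (∃ n ∈ sig, n b = 1 ∨ n (bar b) = 1 ∨ (bar b = b ∧ n b ≤ 3)) ∨
      (∃ N : Matrix ι ι K, N * N = 0 ∧ 1 + N ∈ zar (img K ρ ⊤) ∧
        ((N * e b).rank = 1 ∨ (bar b = b ∧ ((N * e b).rank = 2 ∨ Odd (N * e b).rank)))) ∨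
      ∃ σ : G, FreeCut (ψ.map (algebraMap ℚ K)) ((ρ σ).1.map (algebraMap L K)) (e b)
        (bar b = b))
    (H : Subgroup G) (hH : H.FiniteIndex) (hle₀ : H ≤ H₀) :
    monodromy K ρ H = typeGrp K ψ D e sig := by
  classical
  obtain ⟨hJ, hdet⟩ := gram_basic hψ hψ0 K
  have hspl' := split4_of hspl
  set J : Matrix ι ι K := ψ.map (algebraMap ℚ K) with hJdef
  have hlinK : ∀ σ : G, ∀ d ∈ D, (ρ σ).1.map (algebraMap L K) * d.map (algebraMap ℚ K) =
      d.map (algebraMap ℚ K) * (ρ σ).1.map (algebraMap L K) := by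
    intro σ d hd
    have h1 := congrArg (fun m : Matrix ι ι L => m.map (algebraMap L K)) (lin σ d hd)
    have h2 : (d.map (algebraMap ℚ L)).map (algebraMap L K) = d.map (algebraMap ℚ K) := by
      ext i j
      simp
    simp only [Matrix.map_mul] at h1
    rw [h2] at h1
    exact h1
  have hsimG : ∀ x : G, ∃ c : K, ((ρ x).1.map (algebraMap L K))ᵀ * J *
      (ρ x).1.map (algebraMap L K) = c • J := by
    intro x
    obtain ⟨c, hc⟩ := sim x
    exact ⟨_, sim_map hc⟩
  have hsimI : ∀ H' : Subgroup G, ∀ s ∈ img K ρ H', ∃ c : K, sᵀ * J * s = c • J := by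
    rintro H' _ ⟨y, -, rfl⟩
    exact hsimG y
  have hlinI : ∀ H' : Subgroup G, ∀ s ∈ img K ρ H', ∀ d ∈ spanK K D, s * d = d * s := by
    rintro H' _ ⟨y, -, rfl⟩ d hd
    exact comm_span (hlinK y) d hd
  obtain ⟨k, l, hkl⟩ : ∃ k l, J k l ≠ 0 := by
    by_contra hcon
    push Not at hcon
    have : J = 0 := by
      ext i j
      exact hcon i j
    rw [this, Matrix.det_zero] at hdet
    exact not_isUnit_zero hdet
  have hne : J ≠ 0 := by
    intro h0
    apply hkl
    rw [h0]; rfl
  -- there is a component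
  obtain ⟨b₀⟩ : Nonempty (Fin m) := by
    by_contra hcon
    have hcon' := not_nonempty_iff.1 hcon
    obtain ⟨i⟩ := (inferInstance : Nonempty ι)
    have h1 := hspl'.full (Pi.single i (1 : K))
    have h2 : Submodule.span K {w | ∃ x ∈ spanK K D, ∃ b, ∃ u : ι → K,
        w = x *ᵥ (e b *ᵥ u)} = ⊥ := by
      rw [Submodule.span_eq_bot]
      rintro w ⟨x, -, b, -⟩
      exact (hcon'.false b).elim
    rw [h2, Submodule.mem_bot] at h1
    have h3 := congrFun h1 i
    rw [Pi.single_eq_same] at h3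
    exact one_ne_zero h3
  have hrank0 : ∀ b, 0 < (e b).rank := by
    intro b
    rw [Nat.pos_iff_ne_zero]
    intro h0
    apply hspl.ne_zero b
    apply (phi (ι := ι) (K := K)).injective
    rw [map_zero]
    have h1 : finrank K (LinearMap.range (e b).mulVecLin) = 0 := h0
    rw [Submodule.finrank_eq_zero, LinearMap.range_eq_bot] at h1
    exact h1
  have hrbar : ∀ n ∈ sig, ∀ b, (e (bar b)).rank = (e b).rank := by
    intro n hn b
    rw [← (hpos n hn b).1, ← (hpos n hn (bar b)).1, hspl.barbar, add_comm]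
  have hnon : ∀ x ∈ 𝓗, ∀ b, 1 < (e b).rank → x * e b ≠ 0 ∧ x * e b ≠ e b := by
    intro x hx b hb
    obtain ⟨h1, h2⟩ := hpos _ (hsig x hx) b
    have h3 := (hpos _ (hsig x hx) (bar b)).2 (by rw [hrbar _ (hsig x hx)]; exact hb)
    have h2' := h2 hb
    change (x * e b).rank + (x * e (bar b)).rank = (e b).rank at h1
    change 0 < (x * e b).rank at h2'
    change 0 < (x * e (bar b)).rank at h3
    constructor
    · intro h0
      rw [h0, Matrix.rank_zero] at h2'
      exact lt_irrefl 0 h2'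
    · intro h0
      rw [h0] at h1
      omega
  have hne01 : ∀ x ∈ 𝓗, x ≠ 0 ∧ x ≠ 1 := by
    intro x hx
    have h1 := (hpos _ (hsig x hx) b₀).1
    change (x * e b₀).rank + (x * e (bar b₀)).rank = (e b₀).rank at h1
    have h2 := hrank0 b₀
    have h3 := hrank0 (bar b₀)
    constructor
    · rintro rfl
      rw [zero_mul, zero_mul, Matrix.rank_zero] at h1
      omega
    · rintro rfl
      rw [one_mul, one_mul] at h1
      omega
  have hiso : ∀ b, (∃ u w, e b *ᵥ u = u ∧ e (bar b) *ᵥ w = w ∧ u ≠ 0 ∧ w ≠ 0 ∧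
      om J u w = 0) → 1 < (e b).rank := by
    rintro b ⟨u, w, hu, hw, hu0, hw0, huw⟩
    by_contra hcon
    have hr1 : finrank K (LinearMap.range (e b).mulVecLin) ≤ 1 := not_lt.1 hcon
    obtain ⟨⟨u₁, hu₁⟩, hspan⟩ := finrank_le_one_iff.1 hr1
    have hline : ∀ v, ∃ c : K, e b *ᵥ v = c • u₁ := by
      intro v
      obtain ⟨c, hc⟩ := hspan ⟨e b *ᵥ v, v, rfl⟩
      exact ⟨c, (congrArg Subtype.val hc).symm⟩
    obtain ⟨c₁, hc₁⟩ := hline u
    rw [hu] at hc₁
    have hc₁0 : c₁ ≠ 0 := by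
      rintro rfl
      rw [zero_smul] at hc₁
      exact hu0 hc₁
    apply hw0
    apply om_nd hdet
    intro v
    obtain ⟨c, hc⟩ := hline v
    rw [← hw, ← hspl'.self, hc]
    rw [hc₁, map_smul, LinearMap.smul_apply, smul_eq_mul, mul_eq_zero] at huw
    rw [map_smul, LinearMap.smul_apply, (huw.resolve_left hc₁0), smul_zero]
  have hadj : ∀ x ∈ 𝓗, xᵀ * J * x = 0 ∧ xᵀ * J + J * x = J := fun x hx =>
    proj_sim' hdet hkl (hsimI ⊤) (h𝓗 x hx) (hne01 x hx).1 (hne01 x hx).2
  have hmult0 : ∀ x : Matrix ι ι K, x.det ≠ 0 → ∀ c : K, xᵀ * J * x = c • J → c ≠ 0 := by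
    rintro x hx c hc rfl
    rw [zero_smul] at hc
    have h3 := congrArg Matrix.det hc
    rw [Matrix.det_mul, Matrix.det_mul, Matrix.det_transpose, Matrix.det_zero] at h3
    exact (mul_ne_zero (mul_ne_zero hx hdet.ne_zero) hx) h3
  ext x
  constructor
  · rintro ⟨hx, hxz⟩
    refine ⟨⟨hx, ?_, zar_sim hkl (hsimI H) hxz⟩, ?_⟩
    · intro d hd
      refine zar_commute ?_ hxz
      rintro _ ⟨y, -, rfl⟩
      exact hlinK y d hd
    · intro a a₀ ha c hc
      refine char_zar hkl hspl.idem (S := img K ρ ⊤) ?_ h𝓗 hadj hx ?_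
        (hmult0 x hx c hc) hc ?_ a a₀ ?_
      · intro s hs b
        exact hlinI ⊤ s hs _ (hspl.mem b)
      · intro b
        exact zar_commute (fun s hs => hlinI H s hs _ (hspl.mem b)) hxz
      · refine zar_subset_zar ?_ hxz
        rintro _ ⟨σ, hσ, rfl⟩
        exact hgen ⟨σ, hle₀ hσ, rfl⟩
      · intro y hy
        exact ha _ (hsig y hy)
  · rintro ⟨⟨hx, hxD, c, hc⟩, hchar⟩
    refine ⟨hx, ?_⟩
    obtain ⟨H₁, hle, hfin, hprime⟩ := exists_prime (K := K) ρ H hH
    have hsub : img K ρ H₁ ⊆ img K ρ H := by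
      rintro _ ⟨σ, hσ, rfl⟩
      exact ⟨σ, hle hσ, rfl⟩
    apply zar_mono hsub
    have hinv : ∀ s ∈ img K ρ H₁, ∃ s', s * s' = 1 := by
      rintro _ ⟨y, -, rfl⟩
      exact ⟨_, img_inv ρ y⟩
    have h𝓗₁ : ∀ x ∈ 𝓗, x ∈ hodgeProj (img K ρ H₁) := fun x hx =>
      hodgeProj_finite ρ H₁ (h𝓗 x hx)
    have hbig := mk_big hspl' hJ hdet hkl (img_one ρ H₁) (img_mul ρ H₁) hinv (hsimI H₁)
      (hlinI H₁) hprime (semis H₁ hfin) (commt H₁ hfin) h𝓗₁ hne01
      (fun x hx b hb => hnon x hx b (hiso b hb)) (by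
        rintro _ ⟨σ, hσ, rfl⟩
        exact hgen ⟨σ, hle₀ (hle hσ), rfl⟩)
    set S₂ : Set (Matrix ι ι K) :=
      Set.range (gin (img K ρ H₁) (img_one ρ H₁) (img_mul ρ H₁)) with hS₂
    have hzar : zar S₂ = zar (img K ρ H₁) := zar_range hinv
    have hone₂ : (1 : Matrix ι ι K) ∈ S₂ := ⟨1, map_one _⟩
    have hmul₂ : ∀ a ∈ S₂, ∀ b ∈ S₂, a * b ∈ S₂ := by
      rintro _ ⟨a, rfl⟩ _ ⟨b, rfl⟩
      exact ⟨a * b, map_mul _ _ _⟩
    have hsim₂ : ∀ s ∈ S₂, ∃ c : K, sᵀ * J * s = c • J := fun s hs =>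
      zar_sim hkl (hsimI H₁) (hzar ▸ subset_zar S₂ hs)
    have hlin₂ : ∀ s ∈ S₂, ∀ d ∈ spanK K D, s * d = d * s := fun s hs d hd =>
      zar_commute (fun s hs => hlinI H₁ s hs d hd) (hzar ▸ subset_zar S₂ hs)
    have hSS₂ : img K ρ H₁ ⊆ S₂ := sub_range hinv
    have hS₂S : S₂ ⊆ zar (img K ρ H₁) := range_sub
    have hsemis₂ : ∀ W : Submodule K (ι → K), (∀ s ∈ S₂, ∀ w ∈ W, s *ᵥ w ∈ W) →
        ∃ W' : Submodule K (ι → K), (∀ s ∈ S₂, ∀ w ∈ W', s *ᵥ w ∈ W') ∧ IsCompl W W' := by
      intro W hW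
      obtain ⟨W', h1, h2⟩ := semis H₁ hfin W (fun s hs => hW s (hSS₂ hs))
      exact ⟨W', fun s hs => zar_stable h1 (hS₂S hs), h2⟩
    have hcommt₂ : ∀ y : Matrix ι ι K, (∀ s ∈ S₂, y * s = s * y) → y ∈ spanK K D :=
      fun y hy => commt H₁ hfin y (fun s hs => hy s (hSS₂ hs))
    have h𝓗₂ : ∀ x ∈ 𝓗, x ∈ hodgeProj S₂ := by
      intro y hy
      have := h𝓗₁ y hy
      refine ⟨this.1, fun t ht => ?_⟩
      rw [hzar]
      exact this.2 t ht
    have h𝓗z : ∀ x ∈ 𝓗, x ∈ zlie S₂ := fun x hx => hodgeProj_zlie hmul₂ (h𝓗₂ x hx)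
    have hgen₂ : S₂ ⊆ zar (Submonoid.closure {m | ∃ h ∈ 𝓗, ∃ t : K, t ≠ 0 ∧
        m = 1 + (t - 1) • h} : Set (Matrix ι ι K)) := by
      refine hS₂S.trans (zar_subset_zar ?_)
      rintro _ ⟨σ, hσ, rfl⟩
      exact hgen ⟨σ, hle₀ (hle hσ), rfl⟩
    -- seeds
    have hseedN : ∀ b, (∃ N : Matrix ι ι K, N ∈ zlie S₂ ∧ N * N = 0 ∧ Nᵀ * J + J * N = 0 ∧
        ((N * e b).rank = 1 ∨ (bar b = b ∧ ((N * e b).rank = 2 ∨ Odd (N * e b).rank)))) →
        Seed (om J) (fun b => phi (e b)) bar (lieE J S₂) b ∧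
        Fu (om J) (fun b => phi (e b)) bar (lieE J S₂) b := by
      rintro b ⟨N, hNz, hN2, hNs, hr⟩
      have hr1 : 1 ≤ (N * e b).rank := by
        rcases hr with hr | ⟨-, hr | hr⟩
        · exact hr.ge
        · omega
        · exact hr.pos
      have hNe : N * e b ≠ 0 := by
        intro h0
        rw [h0, Matrix.rank_zero] at hr1
        omega
      have hNg : phi N ∈ lieE J S₂ := mem_lieE.2 ⟨hNz, (skew_iff hdet N).2 hNs⟩
      have hNN : phi N * phi N = 0 := by rw [← map_mul, hN2, map_zero]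
      have hNe' : phi N * phi (e b) ≠ 0 := by
        rw [← map_mul]
        intro h0
        exact hNe ((phi (ι := ι) (K := K)).injective (by rw [h0, map_zero]))
      by_cases hb : bar b = b
      · by_cases hr2 : (N * e b).rank ≤ 2
        · apply hbig.seed_self hb hNg hNN hNe'
          rw [← map_mul]
          exact hr2
        · have hodd : Odd (N * e b).rank := by
            rcases hr with hr | ⟨-, hr | hr⟩
            · omega
            · omega
            · exact hr
          obtain ⟨n, P, Q, hPQ, hQP⟩ : ∃ n, ∃ (P : Matrix ι (Fin n) K)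
              (Q : Matrix (Fin n) ι K), e b = P * Q ∧ Q * P = 1 :=
            ⟨_, idem_factor (hspl.idem b)⟩
          refine hbig.seed_fu hb hNg hNN hNe' ?_
          intro u hu
          rw [phi_apply] at hu
          obtain ⟨A, hA, hAs, hAu⟩ := fu_odd hspl' hb hJ hdet hPQ hQP hone₂ hlin₂ hsemis₂
            hcommt₂ h𝓗z (fun x hx => (h𝓗 x hx).1) (fun x hx => (hadj x hx).2) hgen₂ hNz hN2 hNs
            hodd hu
          exact ⟨phi A, mem_lieE.2 ⟨hA, (skew_iff hdet A).2 hAs⟩, hAu⟩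
      · apply hbig.seed_unit hb hNg hNN hNe'
        rw [← map_mul]
        change (N * e b).rank ≤ 1
        rcases hr with hr | hr
        · exact hr.le
        · exact absurd hr.1 hb
    -- seeds from unipotent elements
    have hseedT : ∀ b, (∃ N : Matrix ι ι K, N * N = 0 ∧ 1 + N ∈ zar (img K ρ ⊤) ∧
        ((N * e b).rank = 1 ∨ (bar b = b ∧ ((N * e b).rank = 2 ∨ Odd (N * e b).rank)))) →
        Seed (om J) (fun b => phi (e b)) bar (lieE J S₂) b ∧
        Fu (om J) (fun b => phi (e b)) bar (lieE J S₂) b := by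
      rintro b ⟨N, hN2, hN1, hr⟩
      have hr1 : 1 ≤ (N * e b).rank := by
        rcases hr with hr | ⟨-, hr | hr⟩
        · exact hr.ge
        · omega
        · exact hr.pos
      have hline : ∀ t : K, 1 + t • N ∈ zar S₂ := by
        rw [hzar]
        refine line_finite ρ H₁ (T := Set.range (Nat.cast : ℕ → K))
          (Set.infinite_range_of_injective Nat.cast_injective) ?_
        rintro _ ⟨n, rfl⟩
        exact pow_line (img_one ρ ⊤) (img_mul ρ ⊤) hN2 hN1 n
      have hN0 : N ≠ 0 := by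
        rintro rfl
        rw [zero_mul, Matrix.rank_zero] at hr1
        omega
      have hNz : N ∈ zlie S₂ :=
        mem_zlie_of_infinite hmul₂ (T := Set.univ) Set.infinite_univ (fun t _ => hline t)
      have hNs : Nᵀ * J + J * N = 0 := by
        obtain ⟨c1, hc1⟩ := zar_sim hkl hsim₂ (hline 1)
        obtain ⟨c2, hc2⟩ := zar_sim hkl hsim₂ (hline 2)
        obtain ⟨a, b, ha, hb⟩ := line_sim hc1 hc2
        exact nil_sim hdet ha hb hN2 hN0
      exact hseedN b ⟨N, hNz, hN2, hNs, hr⟩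
    -- seeds from Hodge projectors
    have hseedH : ∀ b, 1 < (e b).rank →
        (∃ n ∈ sig, n b = 1 ∨ n (bar b) = 1 ∨ (bar b = b ∧ n b ≤ 3)) →
        Seed (om J) (fun b => phi (e b)) bar (lieE J S₂) b ∧
        Fu (om J) (fun b => phi (e b)) bar (lieE J S₂) b := by
      rintro b hb1 ⟨n, hn, hnb⟩
      obtain ⟨x, hx, hxn⟩ := hsig' n hn
      have hxx := (h𝓗 x hx).1
      have hL : ∀ x ∈ 𝓗, x ∈ preL J S₂ := by
        intro x hx
        refine ⟨⟨0, x, h𝓗z x hx, by rw [zero_smul, add_zero]⟩, 1, ?_⟩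
        rw [(hadj x hx).2, one_smul]
      have hne1 : phi x * phi (e b) ≠ 0 := by
        rw [← map_mul]
        intro h0
        exact (hnon x hx b hb1).1 ((phi (ι := ι) (K := K)).injective (by rw [h0, map_zero]))
      have hne2 : phi x * phi (e (bar b)) ≠ 0 := by
        rw [← map_mul]
        intro h0
        exact (hnon x hx (bar b) (by rw [hrbar n hn]; exact hb1)).1
          ((phi (ι := ι) (K := K)).injective (by rw [h0, map_zero]))
      obtain ⟨_, ⟨y, hy, rfl⟩, hne⟩ := hbig.hodge_move ⟨x, hx, rfl⟩ hne1 hne2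
      have hne' : (y * x - x * y * x) * e b ≠ 0 := by
        intro h0
        apply hne
        change (phi y * phi x - phi x * phi y * phi x) * phi (e b) = 0
        rw [← map_mul, ← map_mul, ← map_mul, ← map_sub, ← map_mul, h0, map_zero]
      obtain ⟨h1, h2⟩ := preL_hodge (hL x hx) (hL y hy) hxx
      have hye : y * e b = e b * y := preL_e hspl' hone₂ hlin₂ (hL y hy)
      have hxe : x * e b = e b * x := preL_e hspl' hone₂ hlin₂ (hL x hx)
      have hxe' : x * e (bar b) = e (bar b) * x := preL_e hspl' hone₂ hlin₂ (hL x hx)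
      have hr1 : ((y * x - x * y * x) * e b).rank ≤ n b := by
        have : (y * x - x * y * x) * e b = ((1 - x) * y) * (x * e b) := by noncomm_ring
        rw [this, ← hxn b]
        exact Matrix.rank_mul_le_right _ _
      have hr2 : ((y * x - x * y * x) * e b).rank ≤ n (bar b) := by
        have : (y * x - x * y * x) * e b = ((1 - x) * e b) * (y * x) := by
          calc (y * x - x * y * x) * e b = (1 - x) * y * (x * e b) := by noncomm_ring
            _ = (1 - x) * (y * e b) * x := by rw [hxe]; noncomm_ring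
            _ = _ := by rw [hye]; noncomm_ring
        rw [this, ← hxn (bar b), ← rank_compl hdet (hadj x hx).2 (hspl.adj b) hxe']
        exact Matrix.rank_mul_le_left _ _
      have hr0 : ((y * x - x * y * x) * e b).rank ≠ 0 := by
        intro h0
        apply hne'
        apply (phi (ι := ι) (K := K)).injective
        rw [map_zero]
        have h1 : finrank K (LinearMap.range ((y * x - x * y * x) * e b).mulVecLin) = 0 := h0
        rw [Submodule.finrank_eq_zero, LinearMap.range_eq_bot] at h1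
        exact h1
      have hN2 : (y * x - x * y * x) * (y * x - x * y * x) = 0 := by
        calc (y * x - x * y * x) * (y * x - x * y * x) = y * x * y * x - y * (x * x) * y * x -
              x * y * x * y * x + x * y * (x * x) * y * x := by noncomm_ring
          _ = 0 := by rw [hxx]; abel
      refine hseedN b ⟨_, h1, hN2, h2, ?_⟩
      rcases hnb with hnb | hnb | ⟨hbb, hnb⟩
      · left
        omega
      · left
        omega
      · generalize ((y * x - x * y * x) * e b).rank = ρ₀ at hr0 hr1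
        have h3 : ρ₀ ≤ 3 := hr1.trans hnb
        interval_cases ρ₀
        · exact absurd rfl hr0
        · exact Or.inl rfl
        · exact Or.inr ⟨hbb, Or.inl rfl⟩
        · exact Or.inr ⟨hbb, Or.inr ⟨1, rfl⟩⟩
    -- seeds from free cuts
    have hseedF : ∀ b, 1 < (e b).rank →
        (∃ σ : G, FreeCut J ((ρ σ).1.map (algebraMap L K)) (e b) (bar b = b)) →
        Seed (om J) (fun b => phi (e b)) bar (lieE J S₂) b ∧
        Fu (om J) (fun b => phi (e b)) bar (lieE J S₂) b := by
      rintro b hb1 ⟨σ, hcut⟩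
      obtain ⟨n₀, hn₀⟩ : ∃ n, n ∈ sig := by
        by_contra hcon
        push Not at hcon
        obtain ⟨-, c', w', A', -, ⟨α, hα, v, hv, hv0, hxv⟩, ⟨β, hβ, ⟨v', hv', hv'0, hxv'⟩, -⟩,
          -⟩ := hcut
        have h1 : v' ∈ Submodule.span K {v} := by
          refine irr_b hbig (L := ⊥) ?_ (b := b) (W := Submodule.span K {v}) ?_ ?_ ?_ hv'
          · rintro _ ⟨k, hk, rfl⟩
            exact (hcon _ (hsig k hk)).elim
          · intro y hy
            obtain ⟨a, rfl⟩ := Submodule.mem_span_singleton.1 hy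
            rw [map_smul]
            exact congrArg (fun z => a • z) hv
          · intro X hX y _
            rw [(Submodule.mem_bot K).1 hX, LinearMap.zero_apply]
            exact Submodule.zero_mem _
          · rw [Ne, Submodule.span_singleton_eq_bot]
            exact hv0
        obtain ⟨a, rfl⟩ := Submodule.mem_span_singleton.1 h1
        rw [Matrix.mulVec_smul, hxv, smul_comm, ← sub_eq_zero, ← sub_smul] at hxv'
        have h2 := (smul_eq_zero.1 hxv').resolve_right hv'0
        apply hβ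
        rw [← sub_eq_zero.1 h2]
        exact hα
      obtain ⟨k₀, hk₀, hkn⟩ := hsig' n₀ hn₀
      have hL : ∀ x ∈ 𝓗, x ∈ preL J S₂ := by
        intro x hx
        refine ⟨⟨0, x, h𝓗z x hx, by rw [zero_smul, add_zero]⟩, 1, ?_⟩
        rw [(hadj x hx).2, one_smul]
      have hcz : ∀ A ∈ zlie S₂, (ρ σ).1.map (algebraMap L K) * A *
          (ρ σ⁻¹).1.map (algebraMap L K) ∈ zlie S₂ := by
        intro A hA
        refine zlie_conj' (img_inv ρ σ) (conj_transfer hzar (van_conj ρ hprime hfin σ)) ?_ hA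
        have := van_conj (K := K) ρ hprime hfin σ⁻¹
        rw [inv_inv] at this
        exact conj_transfer hzar this
      obtain ⟨X, hXz, hXs, hX0, hXr⟩ := frob_elt hspl' hdet hne hone₂ hlin₂ hbig hL
        (img_inv ρ σ) hcz (hlinI ⊤ _ ⟨σ, trivial, rfl⟩ _ (hspl.mem b)) hcut
      have hXg : phi X ∈ lieE J S₂ := mem_lieE.2 ⟨hXz, (skew_iff hdet X).2 hXs⟩
      have hX0' : phi X * phi (e b) ≠ 0 := by
        rw [← map_mul]
        intro h0
        exact hX0 ((phi (ι := ι) (K := K)).injective (by rw [h0, map_zero]))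
      have hne1 : phi k₀ * phi (e b) ≠ phi (e b) := by
        rw [← map_mul]
        intro h0
        exact (hnon k₀ hk₀ b hb1).2 ((phi (ι := ι) (K := K)).injective h0)
      have hne2 : phi k₀ * phi (e (bar b)) ≠ phi (e (bar b)) := by
        rw [← map_mul]
        intro h0
        exact (hnon k₀ hk₀ (bar b) (by rw [hrbar n₀ hn₀]; exact hb1)).2
          ((phi (ι := ι) (K := K)).injective h0)
      have hmv : ∀ k ∈ (fun x => phi x) '' 𝓗, ∀ A ∈ lieE J S₂, A * k - k * A * k ∈
          lieE J S₂ := by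
        rintro _ ⟨k, hk, rfl⟩ A hA
        obtain ⟨a, rfl⟩ := (phi (ι := ι) (K := K)).surjective A
        have h1 := mem_lieE.1 hA
        have ha : a ∈ preL J S₂ :=
          ⟨⟨0, a, h1.1, by rw [zero_smul, add_zero]⟩, 0, by
            rw [zero_smul]; exact (skew_iff hdet a).1 h1.2⟩
        obtain ⟨h2, h3⟩ := preL_hodge (hL k hk) ha (h𝓗 k hk).1
        change phi a * phi k - phi k * phi a * phi k ∈ lieE J S₂
        rw [← map_mul, ← map_mul, ← map_mul, ← map_sub]
        exact mem_lieE.2 ⟨h2, (skew_iff hdet _).2 h3⟩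
      by_cases hb : bar b = b
      · have hr : finrank K (LinearMap.range (phi X * phi (e b))) ≤ 2 := by
          rw [← map_mul]
          change (X * e b).rank ≤ 2
          rcases hXr with h1 | h1
          · exact h1.2
          · omega
        obtain ⟨M, hM, hM2, hM0, hMr⟩ := move_self hbig hmv hb hXg hX0' hr ⟨k₀, hk₀, rfl⟩ hne1
        exact hbig.seed_self hb hM hM2 hM0 hMr
      · have hr : finrank K (LinearMap.range (phi X * phi (e b))) ≤ 1 := by
          rw [← map_mul]
          change (X * e b).rank ≤ 1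
          rcases hXr with h1 | h1
          · exact absurd h1.1 hb
          · exact h1
        obtain ⟨M, hM, hM2, hM0, hMr⟩ := move_unit hbig hmv hXg hX0' hr ⟨k₀, hk₀, rfl⟩ hne1 hne2
        exact hbig.seed_unit hb hM hM2 hM0 hMr
    have hseed : ∀ b, (e b).rank ≠ 1 →
        Seed (om J) (fun b => phi (e b)) bar (lieE J S₂) b ∧
        Fu (om J) (fun b => phi (e b)) bar (lieE J S₂) b := by
      intro b hb1
      have := hrank0 b
      rcases comp b with hb | hb | hb | hb
      · exact absurd hb hb1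
      · exact hseedH b (by omega) hb
      · exact hseedT b hb
      · exact hseedF b (by omega) hb
    have hthin : ∀ b, (e b).rank = 1 → hbig.Thin b := by
      intro b hb A hA
      obtain ⟨X, rfl⟩ := (phi (ι := ι) (K := K)).surjective A
      have hXe : X * e b = e b * X := H76RM.zlie_commute hone₂
        (fun s hs => hlin₂ s hs _ (hspl.mem b)) (mem_lieE.1 hA).1
      obtain ⟨n, P, Q, hn, hPQ, hQP⟩ : ∃ n, ∃ (P : Matrix ι (Fin n) K)
          (Q : Matrix (Fin n) ι K), n = 1 ∧ e b = P * Q ∧ Q * P = 1 := by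
        obtain ⟨P, Q, h1, h2⟩ := idem_factor (hspl.idem b)
        exact ⟨_, P, Q, hb, h1, h2⟩
      subst hn
      refine ⟨(Q * X * P) 0 0, ?_⟩
      rw [← map_mul, ← map_smul]
      congr 1
      have h1 : Q * X * P = ((Q * X * P) 0 0) • (1 : Matrix (Fin 1) (Fin 1) K) := by
        ext i j
        fin_cases i
        fin_cases j
        simp
      calc X * e b = X * (e b * e b) := by rw [hspl.idem]
        _ = e b * X * e b := by rw [← mul_assoc, hXe]
        _ = P * (Q * X * P) * Q := by rw [hPQ]; simp only [Matrix.mul_assoc]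
        _ = _ := by
          rw [h1, Matrix.mul_smul, Matrix.smul_mul, Matrix.mul_one, ← hPQ]
          simp
    have hall : ∀ b, (Seed (om J) (fun b => phi (e b)) bar (lieE J S₂) b ∧
        Fu (om J) (fun b => phi (e b)) bar (lieE J S₂) b) ∨ hbig.Thin b := by
      intro b
      by_cases hb1 : (e b).rank = 1
      · exact Or.inr (hthin b hb1)
      · exact Or.inl (hseed b hb1)
    rw [← hzar]
    refine group_mem hspl' hone₂ hmul₂ hlin₂ ?_ hJ hdet h𝓗₂ hadj hx
      (comm_span hxD) (hmult0 x hx c hc) hc ?_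
    · intro b u w hcore
      by_cases hb : (e b).rank = 1
      · have hcu := hcore.1
        have hcw := hcore.2.1
        rw [phi_apply] at hcu hcw
        have h0 : u = 0 ∨ w = 0 := by
          by_contra hcon
          push Not at hcon
          have := hiso b ⟨u, w, hcu, hcw, hcon.1, hcon.2, hcore.2.2.1⟩
          omega
        refine ⟨0, (zlie S₂).zero_mem, ?_, ?_, ?_, ?_⟩
        · intro v w
          rw [Matrix.zero_mulVec, Matrix.zero_mulVec, map_zero, map_zero, LinearMap.zero_apply,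
            neg_zero]
        · rcases h0 with rfl | rfl
          · rw [map_zero, zero_mul, tw_zero_left]
          · rw [map_zero, zero_mul, tw_zero_right]
        · rcases h0 with rfl | rfl
          · rw [map_zero, zero_mul, tw_zero_right]
          · rw [map_zero, zero_mul, tw_zero_left]
        · intro c _ _
          rw [map_zero, zero_mul]
      obtain ⟨A, hA, h1, h2, h3⟩ := hbig.main hall (hseed b hb) hcore
      obtain ⟨X, rfl⟩ := (phi (ι := ι) (K := K)).surjective A
      refine ⟨X, (mem_lieE.1 hA).1, ?_, h1, h2, h3⟩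
      intro v w
      have := H76RM.skew_om hdet (mem_skewE.1 hA.2) v w
      rwa [phi_apply, phi_apply] at this
    · intro a a₀ ha
      refine hchar a a₀ ?_ c hc
      intro n hn
      obtain ⟨y, hy, hyn⟩ := hsig' n hn
      have := ha y hy
      simpa only [hyn] using this

end Pool.Agent.H76F
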