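import Pool.Agent.Lib.H76F.Small

/-!
# From elements of small rank to elements of small rank and square zero, by Hodge projectors
-/

set_option autoImplicit false
set_option linter.unusedSectionVars false
namespace Pool.Agent.H76F
open Module Pool.Agent.H53Toric Pool.Agent.H76U

variable {K : Type*} [Field K] {V : Type*} [AddCommGroup V] [Module K V]
variable {B : Type*} [Fintype B] [DecidableEq B] {Γ : Type*} [Group Γ]
variable {ω : V →ₗ[K] V →ₗ[K] K} {e : B → Module.End K V} {bar : B → B}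
    {g : Submodule K (Module.End K V)} {r : Γ →* Module.End K V} {𝓗 : Set (Module.End K V)}

section
variable (h : Big ω e bar g r 𝓗)
include h

/-- a Hodge projector fixing an orbit is the identity on the component -/
theorem fix_all {k : Module.End K V} (hk : k ∈ 𝓗) {b : B} {u : V} (hu : e b u = u)
    (hu0 : u ≠ 0) (hall : ∀ x, k (r x u) = r x u) : k * e b = e b := by
  ext v
  change k (e b v) = e b v
  by_contra hne
  have hkv : e b (k (e b v) - e b v) = k (e b v) - e b v := by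
    rw [map_sub, h.fixh hk (h.idem' b v), h.idem']
  obtain ⟨w', hw', hne'⟩ : ∃ w', e (bar b) w' = w' ∧ ω (k (e b v) - e b v) w' ≠ 0 := by
    by_contra hcon2
    push Not at hcon2
    exact sub_ne_zero.2 hne (h.nd' hkv hcon2)
  have h6 : ω (k (e b v) - e b v) w' = - ω (e b v) (k w') := by
    rw [map_sub, LinearMap.sub_apply, ← h.hadj k hk (e b v) w']; ring
  rw [h6] at hne'
  have hy0 : k w' ≠ 0 := by
    intro h0
    rw [h0, map_zero, neg_zero] at hne'
    exact hne' rfl
  obtain ⟨x, hx⟩ := h.ex hu (h.fixh hk hw') hu0 hy0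
  have h7 := h.hadj k hk (r x u) w'
  rw [hall x] at h7
  exact hx (by linear_combination h7)

/-- a conjugation moving two vectors away from the fixed space of a Hodge projector -/
theorem exists_away [FiniteDimensional K V] {k : Module.End K V} (hk : k ∈ 𝓗) {b b' : B}
    {u w : V} (hu : e b u = u) (hw : e b' w = w) (hu0 : u ≠ 0) (hw0 : w ≠ 0)
    (h1 : k * e b ≠ e b) (h2 : k * e b' ≠ e b') :
    ∃ x, r x u - k (r x u) ≠ 0 ∧ r x w - k (r x w) ≠ 0 := by
  have key : ∀ {c : B} {v : V}, e c v = v → v ≠ 0 → k * e c ≠ e c →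
      ∃ a, ∃ x, ω (r x v - k (r x v)) a ≠ 0 := by
    intro c v hv hv0 hc
    obtain ⟨x, hx⟩ : ∃ x, k (r x v) ≠ r x v := by
      by_contra hcon
      push Not at hcon
      exact hc (fix_all h hk hv hv0 hcon)
    have hne : r x v - k (r x v) ≠ 0 := sub_ne_zero.2 (Ne.symm hx)
    obtain ⟨a, ha⟩ : ∃ a, ω (r x v - k (r x v)) a ≠ 0 := by
      by_contra hcon
      push Not at hcon
      exact hne (h.nd _ hcon)
    exact ⟨a, x, ha⟩
  obtain ⟨a, ha⟩ := key hu hu0 h1
  obtain ⟨a', ha'⟩ := key hw hw0 h2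
  have hc : ∀ a v : V, (fun x => ω (r x v - k (r x v)) a) ∈ coef ω r := by
    intro a v
    exact h.cf_dual (ω.flip a ∘ₗ (1 - k)) v
  obtain ⟨x, hx1, hx2⟩ := h.prime2 (hc a u) (hc a' w) ha ha'
  refine ⟨x, ?_, ?_⟩
  · intro h0
    exact hx1 (by change ω (r x u - k (r x u)) a = 0; rw [h0, map_zero, LinearMap.zero_apply])
  · intro h0
    exact hx2 (by change ω (r x w - k (r x w)) a' = 0; rw [h0, map_zero, LinearMap.zero_apply])

theorem sand {k : Module.End K V} (hk : k ∈ 𝓗) (u w : V) :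
    (1 - k) * tw ω u w * k = tw ω (u - k u) (w - k w) := by
  ext v
  change tw ω u w (k v) - k (tw ω u w (k v)) = tw ω (u - k u) (w - k w) v
  rw [tw_apply, tw_apply, h.hadj' hk, map_smul, ← smul_sub]

/-- the general construction -/
theorem move_gen (hmv : ∀ k ∈ 𝓗, ∀ A ∈ g, A * k - k * A * k ∈ g) [FiniteDimensional K V]
    {b : B} {X : Module.End K V} (hX : X ∈ g) {k : Module.End K V} (hk : k ∈ 𝓗) {n : ℕ}
    (hr : finrank K (LinearMap.range (X * e b)) ≤ n) (x : Γ)
    (hne : (1 - k) * (r x * (X * e b) * r x⁻¹) * k ≠ 0) :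
    ∃ M ∈ g, M * M = 0 ∧ M * e b ≠ 0 ∧ finrank K (LinearMap.range (M * e b)) ≤ n := by
  set A := r x * X * r x⁻¹ with hA
  have hAg : A ∈ g := h.conj x X hX
  have hMe : (A * k - k * A * k) * e b = (1 - k) * (r x * (X * e b) * r x⁻¹) * k := by
    have h1 : e b * k = k * e b := h.hcomm k hk b
    have h2 : r x⁻¹ * e b = e b * r x⁻¹ := (h.rcomm b x⁻¹).symm
    calc (A * k - k * A * k) * e b = (1 - k) * A * (k * e b) := by noncomm_ring
      _ = (1 - k) * A * (e b * k) := by rw [h1]
      _ = (1 - k) * (r x * X * (r x⁻¹ * e b)) * k := by rw [hA]; noncomm_ring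
      _ = (1 - k) * (r x * X * (e b * r x⁻¹)) * k := by rw [h2]
      _ = _ := by noncomm_ring
  refine ⟨A * k - k * A * k, hmv k hk A hAg, ?_, ?_, ?_⟩
  · have hkk := h.hidem k hk
    have e1 : (A * k - k * A * k) * (A * k - k * A * k) =
        A * k * A * k - A * (k * k) * A * k - k * A * k * A * k + k * A * (k * k) * A * k := by
      noncomm_ring
    rw [e1, hkk]
    abel
  · rw [hMe]
    exact hne
  · rw [hMe]
    refine (finrank_range_mul_le_left _ _).trans ?_
    refine (finrank_range_mul_le_right _ _).trans ?_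
    refine (finrank_range_mul_le_left _ _).trans ?_
    exact (finrank_range_mul_le_right _ _).trans hr

/-- unitary components -/
theorem move_unit (hmv : ∀ k ∈ 𝓗, ∀ A ∈ g, A * k - k * A * k ∈ g) [FiniteDimensional K V]
    {b : B} {X : Module.End K V} (hX : X ∈ g) (hX0 : X * e b ≠ 0)
    (hr : finrank K (LinearMap.range (X * e b)) ≤ 1) {k : Module.End K V} (hk : k ∈ 𝓗)
    (h1 : k * e b ≠ e b) (h2 : k * e (bar b) ≠ e (bar b)) :
    ∃ M ∈ g, M * M = 0 ∧ M * e b ≠ 0 ∧ finrank K (LinearMap.range (M * e b)) ≤ 1 := by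
  obtain ⟨u, w, hu, hw, hu0, hw0, hXb⟩ := h.exists_tw hX hX0 hr
  obtain ⟨x, hx1, hx2⟩ := exists_away h hk hu hw hu0 hw0 h1 h2
  refine move_gen h hmv hX hk hr x ?_
  obtain ⟨c, hc, -, h3⟩ := h.conj_tw x
  rw [hXb, h3, mul_smul_comm, smul_mul_assoc, sand h hk]
  exact smul_ne_zero (inv_ne_zero hc) (h.tw_ne hx1 hx2)

/-- symplectic components -/
theorem move_self [IsAlgClosed K] [CharZero K]
    (hmv : ∀ k ∈ 𝓗, ∀ A ∈ g, A * k - k * A * k ∈ g) [FiniteDimensional K V]
    {b : B} (hb : bar b = b) {X : Module.End K V} (hX : X ∈ g) (hX0 : X * e b ≠ 0)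
    (hr : finrank K (LinearMap.range (X * e b)) ≤ 2) {k : Module.End K V} (hk : k ∈ 𝓗)
    (h1 : k * e b ≠ e b) :
    ∃ M ∈ g, M * M = 0 ∧ M * e b ≠ 0 ∧ finrank K (LinearMap.range (M * e b)) ≤ 2 := by
  have hsk := h.setup_self.skew_e hX (b := ⟨b, hb⟩)
  have hrange : ∀ v ∈ LinearMap.range (X * e b), e b v = v := by
    rintro _ ⟨v, rfl⟩
    change e b (X (e b v)) = X (e b v)
    rw [h.ecomm hX, h.idem']
  rcases H76RM.rank_two h.alt h.nd hsk hX0 hr with ⟨d, hd, hT⟩ | ⟨p, q, hp, hq, hpq, hT⟩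
  · have hdb := hrange d hd
    have hd0 : d ≠ 0 := by
      rintro rfl
      apply hX0
      rw [hT]
      ext v
      rw [trv_apply, smul_zero]; rfl
    obtain ⟨x, hx1, -⟩ := exists_away h hk hdb hdb hd0 hd0 h1 h1
    refine move_gen h hmv hX hk hr x ?_
    obtain ⟨c, hc, -, h3⟩ := h.conj_tw x
    have hT' : X * e b = tw ω d d := hT
    rw [hT', h3, mul_smul_comm, smul_mul_assoc, sand h hk]
    exact smul_ne_zero (inv_ne_zero hc) (h.tw_ne hx1 hx1)
  · have hpb := hrange p hp
    have hqb := hrange q hq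
    have hp0 : p ≠ 0 := by
      rintro rfl
      exact one_ne_zero (hpq 1 0 (by simp)).1
    have hq0 : q ≠ 0 := by
      rintro rfl
      exact one_ne_zero (hpq 0 1 (by simp)).2
    obtain ⟨x, hx1, hx2⟩ := exists_away h hk hpb hqb hp0 hq0 h1 h1
    refine move_gen h hmv hX hk hr x ?_
    obtain ⟨c, hc, -, h3⟩ := h.conj_tw x
    have hT' : X * e b = tw ω q p + tw ω p q := by
      ext v
      rw [LinearMap.add_apply, tw_apply, tw_apply]
      exact hT v
    rw [hT', mul_add, add_mul, h3, h3, ← smul_add, mul_smul_comm, smul_mul_assoc, mul_add,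
      add_mul, sand h hk, sand h hk]
    apply smul_ne_zero (inv_ne_zero hc)
    set p' := r x p - k (r x p)
    set q' := r x q - k (r x q)
    intro h0
    obtain ⟨v₁, hv₁⟩ : ∃ v, ω v p' ≠ 0 := by
      by_contra hcon
      push Not at hcon
      exact hx1 (h.nd2 hcon)
    obtain ⟨v₂, hv₂⟩ : ∃ v, ω v q' ≠ 0 := by
      by_contra hcon
      push Not at hcon
      exact hx2 (h.nd2 hcon)
    have key : ∀ v, ω v p' * ω v q' = 0 := by
      intro v
      have h4 : ω v ((tw ω q' p' + tw ω p' q') v) = 0 := by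
        rw [h0, LinearMap.zero_apply, map_zero]
      rw [LinearMap.add_apply, tw_apply, tw_apply, map_add, map_smul, map_smul, smul_eq_mul,
        smul_eq_mul] at h4
      have h5 : (2 : K) * (ω v p' * ω v q') = 0 := by linear_combination h4
      exact (mul_eq_zero.1 h5).resolve_left two_ne_zero
    have e1 : ω v₁ q' = 0 := (mul_eq_zero.1 (key v₁)).resolve_left hv₁
    have e2 : ω v₂ p' = 0 := (mul_eq_zero.1 (key v₂)).resolve_right hv₂
    have e3 := key (v₁ + v₂)
    rw [map_add, LinearMap.add_apply, LinearMap.add_apply, e1, e2, add_zero, zero_add] at e3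
    exact mul_ne_zero hv₁ hv₂ e3

end

end Pool.Agent.H76F
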