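import Pool.Agent.Lib.H76F.Arrow

/-!
# Components of small rank of an element of a Lie algebra of skew operators
-/

set_option autoImplicit false
set_option linter.unusedSectionVars false
namespace Pool.Agent.H76F
open Module Pool.Agent.H53Toric

variable {K : Type*} [Field K] {V : Type*} [AddCommGroup V] [Module K V]

theorem finrank_range_le_of_pair {T : Module.End K V} {d q : V}
    (h : ∀ v, T v ∈ Submodule.span K ({d, q} : Set V)) : finrank K (LinearMap.range T) ≤ 2 := by
  have hle : LinearMap.range T ≤ Submodule.span K ({d, q} : Set V) := by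
    rintro _ ⟨v, rfl⟩
    exact h v
  have : Module.Finite K (Submodule.span K ({d, q} : Set V)) :=
    FiniteDimensional.span_of_finite K (Set.toFinite _)
  refine (Submodule.finrank_mono hle).trans ?_
  classical
  have h1 := finrank_span_finset_le_card (R := K) ({d, q} : Finset V)
  rw [Set.finrank, Finset.coe_pair] at h1
  exact h1.trans Finset.card_le_two

theorem finrank_range_le_of_line {T : Module.End K V} {d : V}
    (h : ∀ v, ∃ t : K, T v = t • d) : finrank K (LinearMap.range T) ≤ 1 := by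
  have hle : LinearMap.range T ≤ Submodule.span K ({d} : Set V) := by
    rintro _ ⟨v, rfl⟩
    obtain ⟨t, ht⟩ := h v
    rw [ht]
    exact Submodule.smul_mem _ _ (Submodule.mem_span_singleton_self d)
  have : Module.Finite K (Submodule.span K ({d} : Set V)) :=
    FiniteDimensional.span_of_finite K (Set.toFinite _)
  refine (Submodule.finrank_mono hle).trans ?_
  classical
  have h1 := finrank_span_finset_le_card (R := K) ({d} : Finset V)
  rw [Set.finrank, Finset.coe_singleton] at h1
  exact h1.trans (by simp)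

/-- the unitary case -/
theorem rank_le_one {e X x : Module.End K V} (he : ∀ v, e (e v) = e v)
    (hspan : ∀ W : Submodule K V, (∀ (γ : K) (v : V), e v = v → x v = γ • v → v ∈ W) →
      ∀ v, e v = v → v ∈ W)
    {β : K} (hblock : ∀ (γ : K) (v : V), e v = v → x v = γ • v → X v ≠ 0 → γ = β)
    {d : V} (hline : ∀ v, e v = v → x v = β • v → ∃ t : K, X v = t • d) :
    finrank K (LinearMap.range (X * e)) ≤ 1 := by
  apply finrank_range_le_of_line (d := d)
  intro v
  let W : Submodule K V :=
    { carrier := {v | ∃ t : K, X v = t • d}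
      add_mem' := by
        rintro a b ⟨s, hs⟩ ⟨t, ht⟩
        exact ⟨s + t, by rw [map_add, hs, ht, add_smul]⟩
      zero_mem' := ⟨0, by rw [map_zero, zero_smul]⟩
      smul_mem' := by
        rintro c a ⟨s, hs⟩
        exact ⟨c * s, by rw [map_smul, hs, smul_smul]⟩ }
  refine hspan W ?_ (e v) (he v)
  intro γ u hu hxu
  by_cases hXu : X u = 0
  · exact ⟨0, by rw [hXu, zero_smul]⟩
  have := hblock γ u hu hxu hXu
  rw [this] at hxu
  exact hline u hu hxu

/-- the symplectic case -/
theorem rank_le_two {ω : V →ₗ[K] V →ₗ[K] K} (hnd : ∀ u, (∀ w, ω u w = 0) → u = 0)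
    {e X x : Module.End K V} (hself : ∀ v w, ω (e v) w = ω v (e w)) (he : ∀ v, e (e v) = e v)
    (hXe : ∀ v, e (X v) = X (e v)) (hskew : ∀ v w, ω (X v) w = - ω v (X w))
    {c : K} (hc : c ≠ 0) (hsim : ∀ v w, ω (x v) (x w) = c * ω v w)
    (hspan : ∀ W : Submodule K V, (∀ (γ : K) (v : V), e v = v → x v = γ • v → v ∈ W) →
      ∀ v, e v = v → v ∈ W)
    {μ β : K} (hμ : x * X = μ • (X * x)) (hμβ : μ * β ≠ 0)
    (hblock : ∀ (γ : K) (v : V), e v = v → x v = γ • v → X v ≠ 0 → γ = β ∨ (μ * β) * γ = c)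
    {d : V}
    (hline : ∀ v, e v = v → x v = β • v → ∃ t : K, X v = t • d) :
    finrank K (LinearMap.range (X * e)) ≤ 2 := by
  have hμ0 : μ ≠ 0 := left_ne_zero_of_mul hμβ
  -- vectors orthogonal to `d` are killed
  have hkill : ∀ (γ : K) (u : V), e u = u → x u = γ • u → γ ≠ β → (μ * β) * γ = c → ω u d = 0 → X u = 0 := by
    intro γ u hu hxu hγβ hγ hud
    apply hnd
    intro z
    have h1 : ω (X u) z = - ω u (X (e z)) := by
      rw [← hskew, ← hself, hXe, hu]
    rw [h1, neg_eq_zero]
    let W : Submodule K V := LinearMap.ker (ω u ∘ₗ X)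
    refine (?_ : e z ∈ W)
    refine hspan W ?_ (e z) (he z)
    intro δ y hy hxy
    change ω u (X y) = 0
    by_cases hXy : X y = 0
    · rw [hXy, map_zero]
    rcases hblock δ y hy hxy hXy with h2 | h2
    · rw [h2] at hxy
      obtain ⟨t, ht⟩ := hline y hy hxy
      rw [ht, map_smul, hud, smul_zero]
    · have hδ : δ = γ := by
        rw [← hγ] at h2
        exact mul_left_cancel₀ hμβ h2
      have h3 := hsim u (X y)
      rw [hxu, comm_vec hμ hxy, map_smul, map_smul, LinearMap.smul_apply, smul_eq_mul,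
        smul_eq_mul] at h3
      have h4 : (γ * (μ * δ) - c) * ω u (X y) = 0 := by linear_combination h3
      rcases mul_eq_zero.1 h4 with h5 | h5
      · exfalso
        apply hγβ
        rw [hδ] at h5
        have hγ0 : γ ≠ 0 := by
          rintro rfl
          rw [mul_zero] at hγ
          exact hc hγ.symm
        have h6 : (μ * γ) * (γ - β) = 0 := by linear_combination h5 - hγ
        exact sub_eq_zero.1 ((mul_eq_zero.1 h6).resolve_left (mul_ne_zero hμ0 hγ0))
      · exact h5
  obtain ⟨q, hq⟩ : ∃ q, ∀ (γ : K) (u : V), e u = u → x u = γ • u → γ ≠ β → (μ * β) * γ = c →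
      ∃ t : K, X u = t • q := by
    by_cases hex : ∃ u₀, e u₀ = u₀ ∧ ω u₀ d ≠ 0 ∧ ∃ γ₀, γ₀ ≠ β ∧ (μ * β) * γ₀ = c ∧
        x u₀ = γ₀ • u₀
    · obtain ⟨u₀, hu₀, hu₀d, γ₀, hγ₀β, hγ₀, hxu₀⟩ := hex
      refine ⟨X u₀, fun γ u hu hxu hγβ hγ => ?_⟩
      have hγγ : γ₀ = γ := by
        rw [← hγ] at hγ₀
        exact mul_left_cancel₀ hμβ hγ₀
      rw [hγγ] at hxu₀
      refine ⟨ω u d * (ω u₀ d)⁻¹, ?_⟩
      rw [← sub_eq_zero, ← map_smul, ← map_sub]
      apply hkill γ _ (by rw [map_sub, map_smul, hu, hu₀])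
        (by rw [map_sub, map_smul, hxu, hxu₀, smul_sub, smul_comm]) hγβ hγ
      rw [map_sub, map_smul, LinearMap.sub_apply, LinearMap.smul_apply, smul_eq_mul, mul_assoc,
        inv_mul_cancel₀ hu₀d, mul_one, sub_self]
    · push Not at hex
      refine ⟨0, fun γ u hu hxu hγβ hγ => ⟨0, ?_⟩⟩
      rw [smul_zero]
      apply hkill γ u hu hxu hγβ hγ
      by_contra hne
      exact hex u hu hne γ hγβ hγ hxu
  apply finrank_range_le_of_pair (d := d) (q := q)
  intro v
  let W : Submodule K V := (Submodule.span K ({d, q} : Set V)).comap X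
  refine (?_ : e v ∈ W)
  refine hspan W ?_ (e v) (he v)
  intro γ u hu hxu
  change X u ∈ Submodule.span K ({d, q} : Set V)
  by_cases hXu : X u = 0
  · rw [hXu]
    exact Submodule.zero_mem _
  by_cases hγβ : γ = β
  · rw [hγβ] at hxu
    obtain ⟨t, ht⟩ := hline u hu hxu
    rw [ht]
    exact Submodule.smul_mem _ _ (Submodule.subset_span (by simp))
  · have h2 := (hblock γ u hu hxu hXu).resolve_left hγβ
    obtain ⟨t, ht⟩ := hq γ u hu hxu hγβ h2
    rw [ht]
    exact Submodule.smul_mem _ _ (Submodule.subset_span (by simp))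

end Pool.Agent.H76F
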