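import Pool.Agent.Lib.H76F.Move
import Pool.Agent.Lib.H76F.Defs

/-!
# Conjugation by a diagonalisable matrix
-/

set_option autoImplicit false
set_option linter.unusedSectionVars false
namespace Pool.Agent.H76F
open Module Matrix Pool.Agent.H53Toric Pool.Agent.H76U
open Pool.Agent.H76RM (van mem_van van_anti)

variable {ι : Type*} [Fintype ι] [DecidableEq ι] {K : Type*} [Field K]

/-- conjugation as a linear map -/
def cj (x x' : Matrix ι ι K) : Module.End K (Matrix ι ι K) where
  toFun X := x * X * x'
  map_add' X Y := by rw [mul_add, add_mul]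
  map_smul' c X := by rw [mul_smul_comm, smul_mul_assoc, RingHom.id_apply]

theorem cj_apply (x x' X : Matrix ι ι K) : cj x x' X = x * X * x' := rfl

/-- A subspace of matrices stable under conjugation by a diagonalisable matrix is spanned by
eigenvectors. -/
theorem span_eig {x x' P Q : Matrix ι ι K} {d : ι → K} (hx'x : x' * x = 1)
    (hPQ : P * Q = 1) (hQP : Q * P = 1) (hx : x = P * Matrix.diagonal d * Q)
    (hd : ∀ i, d i ≠ 0) {L : Submodule K (Matrix ι ι K)} (hL : ∀ X ∈ L, x * X * x' ∈ L)
    (p : Submodule K (Matrix ι ι K)) (hp : ∀ X ∈ L, ∀ μ : K, x * X = μ • (X * x) → X ∈ p) :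
    L ≤ p := by
  have hxx' : x * x' = 1 := mul_eq_one_comm.1 hx'x
  have hx' : x' = P * Matrix.diagonal (fun i => (d i)⁻¹) * Q := by
    have h1 : x * (P * Matrix.diagonal (fun i => (d i)⁻¹) * Q) = 1 := by
      rw [hx]
      calc P * Matrix.diagonal d * Q * (P * Matrix.diagonal (fun i => (d i)⁻¹) * Q) =
          P * Matrix.diagonal d * (Q * P) * Matrix.diagonal (fun i => (d i)⁻¹) * Q := by
            noncomm_ring
        _ = P * (Matrix.diagonal d * Matrix.diagonal (fun i => (d i)⁻¹)) * Q := by
            rw [hQP]; noncomm_ring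
        _ = P * 1 * Q := by
            congr 2
            rw [Matrix.diagonal_mul_diagonal, ← Matrix.diagonal_one]
            congr 1
            funext i
            exact mul_inv_cancel₀ (hd i)
        _ = 1 := by rw [mul_one, hPQ]
    calc x' = x' * (x * (P * Matrix.diagonal (fun i => (d i)⁻¹) * Q)) := by rw [h1, mul_one]
      _ = _ := by rw [← mul_assoc, hx'x, one_mul]
  have htop : (⨆ μ, (cj x x').genEigenspace μ 1) = ⊤ := by
    rw [eq_top_iff]
    rintro X -
    have hX : X = ∑ i, ∑ j, P * Matrix.single i j ((Q * X * P) i j) * Q := by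
      have h1 := Matrix.matrix_eq_sum_single (Q * X * P)
      calc X = P * (Q * X * P) * Q := by
            calc X = (P * Q) * X * (P * Q) := by rw [hPQ, one_mul, mul_one]
              _ = _ := by noncomm_ring
        _ = _ := by
            conv_lhs => rw [h1]
            rw [Matrix.mul_sum, Matrix.sum_mul]
            apply Finset.sum_congr rfl
            intro i _
            rw [Matrix.mul_sum, Matrix.sum_mul]
    rw [hX]
    refine Submodule.sum_mem _ fun i _ => Submodule.sum_mem _ fun j _ => ?_
    refine (le_iSup (fun μ => (cj x x').genEigenspace μ 1) (d i * (d j)⁻¹)) ?_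
    have : P * Matrix.single i j ((Q * X * P) i j) * Q ∈
        (cj x x').eigenspace (d i * (d j)⁻¹) := by
      rw [Module.End.mem_eigenspace_iff, cj_apply, hx, hx']
      calc P * Matrix.diagonal d * Q * (P * Matrix.single i j ((Q * X * P) i j) * Q) *
            (P * Matrix.diagonal (fun i => (d i)⁻¹) * Q) =
          P * (Matrix.diagonal d * (Q * P) * Matrix.single i j ((Q * X * P) i j) * (Q * P) *
            Matrix.diagonal (fun i => (d i)⁻¹)) * Q := by noncomm_ring
        _ = P * (Matrix.diagonal d * Matrix.single i j ((Q * X * P) i j) *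
            Matrix.diagonal (fun i => (d i)⁻¹)) * Q := by rw [hQP, mul_one, mul_one]
        _ = P * ((d i * (d j)⁻¹) • Matrix.single i j ((Q * X * P) i j)) * Q := by
            congr 2
            ext k l
            rw [Matrix.mul_diagonal, Matrix.diagonal_mul, Matrix.smul_apply, smul_eq_mul]
            by_cases hk : i = k ∧ j = l
            · obtain ⟨rfl, rfl⟩ := hk
              rw [Matrix.single_apply_same]
              ring
            · rw [Matrix.single_apply_of_ne _ _ _ _ _ hk]
              ring
        _ = _ := by rw [mul_smul_comm, smul_mul_assoc]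
    exact this
  have h1 := Submodule.inf_iSup_genEigenspace (p := L) (f := cj x x') (fun X hX => hL X hX) 1
  rw [htop, inf_top_eq] at h1
  rw [h1]
  refine iSup_le fun μ => ?_
  rintro X ⟨hXL, hX⟩
  apply hp X hXL μ
  have h2 : X ∈ (cj x x').eigenspace μ := hX
  rw [Module.End.mem_eigenspace_iff, cj_apply] at h2
  calc x * X = x * X * (x' * x) := by rw [hx'x, mul_one]
    _ = (x * X * x') * x := by noncomm_ring
    _ = _ := by rw [h2, smul_mul_assoc]

/-- The range of an idempotent commuting with a diagonalisable matrix is spanned by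
eigenvectors. -/
theorem span_range {x p P Q : Matrix ι ι K} {d : ι → K} (hPQ : P * Q = 1) (hQP : Q * P = 1)
    (hx : x = P * Matrix.diagonal d * Q) (hpx : x * p = p * x) (hpp : p * p = p)
    (W : Submodule K (ι → K))
    (hW : ∀ (γ : K) (v : ι → K), p *ᵥ v = v → x *ᵥ v = γ • v → v ∈ W) (v : ι → K)
    (hv : p *ᵥ v = v) : v ∈ W := by
  have h1 : v = ∑ i, (Q *ᵥ v) i • (p *ᵥ (P *ᵥ Pi.single i 1)) := by
    have h2 : Q *ᵥ v = ∑ i, (Q *ᵥ v) i • (Pi.single i (1 : K) : ι → K) := by
      funext j
      rw [Finset.sum_apply, Finset.sum_eq_single j]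
      · simp
      · intro i _ hij
        rw [Pi.smul_apply, Pi.single_eq_of_ne (Ne.symm hij), smul_zero]
      · intro hj
        exact absurd (Finset.mem_univ j) hj
    calc v = p *ᵥ (P *ᵥ (Q *ᵥ v)) := by
          rw [Matrix.mulVec_mulVec v P Q, hPQ, Matrix.one_mulVec, hv]
      _ = _ := by
          conv_lhs => rw [h2]
          rw [Matrix.mulVec_sum, Matrix.mulVec_sum]
          apply Finset.sum_congr rfl
          intro i _
          rw [Matrix.mulVec_smul, Matrix.mulVec_smul]
  rw [h1]
  refine Submodule.sum_mem _ fun i _ => Submodule.smul_mem _ _ ?_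
  apply hW (d i)
  · rw [Matrix.mulVec_mulVec, hpp]
  · rw [Matrix.mulVec_mulVec, hpx, ← Matrix.mulVec_mulVec, ← Matrix.mulVec_smul]
    congr 1
    rw [hx, Matrix.mulVec_mulVec]
    have h3 : P * Matrix.diagonal d * Q * P = P * Matrix.diagonal d := by
      rw [mul_assoc _ Q P, hQP, mul_one]
    rw [h3, ← Matrix.mulVec_mulVec, ← Matrix.mulVec_smul]
    congr 1
    funext j
    rw [Matrix.mulVec_diagonal, Pi.smul_apply, smul_eq_mul]
    by_cases hj : j = i
    · rw [hj]
    · rw [Pi.single_eq_of_ne hj, mul_zero, mul_zero]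

end Pool.Agent.H76F
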